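import Mathlib
import Pool.Agent.H568R2.Defs

/-!
3SUM-Indexing with a memory which is computed by circuits of constant depth: definitions.
-/

namespace Pool.Agent.J4H85.CD

open DomAC0

/-- The places of the binary digits of two arrays of `n` numbers below `2 ^ L`: the array
(`false` is the first array), the index in the array and the digit. -/
abbrev Dig (n L : ℕ) : Type := Bool × Fin n × Fin L

/-- The binary digits of the numbers of the two arrays. -/
def digits {n : ℕ} (L : ℕ) (A : Bool → Fin n → ℕ) : Dig n L → Bool :=
  fun j => (A j.1 j.2.1).testBit j.2.2

/-- The contents of the cells read by the first `t` probes: `nx` says which cell is read next, if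
the contents read before are known, and `cont` is the memory. -/
def rd {s w : ℕ} (nx : List (Fin w → Bool) → Fin s) (cont : Fin s → Fin w → Bool) :
    ℕ → List (Fin w → Bool)
  | 0 => []
  | t + 1 => rd nx cont t ++ [cont (nx (rd nx cont t))]

/-- A data structure for two arrays of `n` numbers below `2 ^ L` with `s` cells of `w` bits. Every
bit of every cell is the value of a circuit on the binary digits of the two arrays. The query `z`
reads cells adaptively; `next z` is the rule for the next probe and `ans z` the rule for the
answer, both are arbitrary functions. -/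
structure CircuitDS (n L s w : ℕ) where
  mem : Fin s → Fin w → Circuit (Dig n L)
  next : ℕ → List (Fin w → Bool) → Fin s
  ans : ℕ → List (Fin w → Bool) → Bool

variable {n L s w : ℕ}

/-- The memory, if the arrays are `A false` and `A true`. -/
noncomputable def CircuitDS.memory (D : CircuitDS n L s w) (A : Bool → Fin n → ℕ) :
    Fin s → Fin w → Bool :=
  fun c b => (D.mem c b).eval (digits L A)

/-- The answer to the query `z` after `T` probes. -/
noncomputable def CircuitDS.answer (D : CircuitDS n L s w) (T : ℕ) (A : Bool → Fin n → ℕ)
    (z : ℕ) : Bool :=
  D.ans z (rd (D.next z) (D.memory A) T)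

/-- `z` is the sum of a number of the first array and a number of the second array. -/
def IsSum (A : Bool → Fin n → ℕ) (z : ℕ) : Prop := ∃ i j, A false i + A true j = z

open Classical in
/-- The random data structure `D` (`D ω` is chosen with probability `p ω`) answers every query `z`
correctly with `T` probes with probability at least `1 / 2 + δ`, for all arrays of `n` numbers
below `2 ^ L`. -/
def Solves {Ω : Type} [Fintype Ω] (p : Ω → ℝ) (D : Ω → CircuitDS n L s w) (T : ℕ) (δ : ℝ) :
    Prop :=
  (∀ ω, 0 ≤ p ω) ∧ ∑ ω, p ω = 1 ∧ ∀ A : Bool → Fin n → ℕ, (∀ b i, A b i < 2 ^ L) → ∀ z : ℕ,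
    1 / 2 + δ ≤ ∑ ω, if ((D ω).answer T A z = true ↔ IsSum A z) then p ω else 0

end Pool.Agent.J4H85.CD
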