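import Mathlib
import Pool.Agent.H568R2.Medium
import Pool.Agent.J4H85.CD.Defs

/-!
Project CD: statements of the pieces (definitions only).
-/

namespace Pool.Agent.J4H85.CD

open Finset DomAC0 H568R2

/-- slots: side, block, position -/
abbrev Slot (k u : ℕ) : Type := Bool × Fin k × Fin u

/-- coordinates whose setting to true changes `f` at `X` -/
def sn {I : Type} [Fintype I] [DecidableEq I] (f : (I → Bool) → Bool) (X : I → Bool) :
    Finset I :=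
  univ.filter (fun l => f (Function.update X l true) ≠ f X)

/-- pairs of coordinates which change `f` at `X` only jointly -/
def jn {I : Type} [Fintype I] [DecidableEq I] (f : (I → Bool) → Bool) (X : I → Bool) :
    Finset (I × I) :=
  univ.filter (fun l => f (Function.update X l.1 true) = f X ∧
    f (Function.update X l.2 true) = f X ∧
    f (Function.update (Function.update X l.1 true) l.2 true) ≠ f X)

open Classical in
/-- probability that the masked function does not become a `K`-junta -/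
noncomputable def NJ {I : Type} [Fintype I] [DecidableEq I] (K : ℕ) (q : ℝ)
    (f : (I → Bool) → Bool) (Y : I → Bool) : ℝ :=
  Ex (wq q) (fun ρ : Restr I =>
    if ¬ Junta K (rs (fun x => f (mask Y x)) ρ) then (1 : ℝ) else 0)

/-- set the slots of position `e` in block `i` of the first side, `j` of the second side -/
def pl2 {k u : ℕ} (i j : Fin k) (e : Fin u) (X : Slot k u → Bool) : Slot k u → Bool :=
  Function.update (Function.update X (false, i, e) true) (true, j, e) true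

/-- the failure probability -/
noncomputable def eta (d m S N : ℕ) (q : ℝ) : ℝ :=
  d * ((S * (N + S + 1) : ℕ) : ℝ) * (4 ^ (KK m d) * (3 * q)) ^ m

/-- JUN: from `collapse` and `node_junta` -/
def S_JUN : Prop := ∀ (I J : Type) [Fintype I] [DecidableEq I] [Fintype J] (C : Circuit J)
  (σ : (I → Bool) → (J → Bool)), (∀ j, Junta 1 (fun x => σ x j)) →
  ∀ (q : ℝ) (m d S : ℕ), 0 ≤ q → q ≤ 1 / 3 → 1 ≤ m → C.depth ≤ d → C.size ≤ S →
  ∀ Y : I → Bool, NJ (KK m d) (q ^ d) (fun x => C.eval (σ x)) Y ≤ eta d m S (Fintype.card J) q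

/-- TAIL -/
def S_TAIL : Prop := ∀ (I : Type) [Fintype I] [DecidableEq I] (f : (I → Bool) → Bool)
  (K V : ℕ) (y q η : ℝ), 0 < y → y ≤ 1 → 0 < q → q ≤ 1 → (∀ Y, NJ K q f Y ≤ η) →
  4 * ((K : ℝ) + 1) ≤ V * (y * q) →
  Ex (vp (y / 2)) (fun X : I → Bool => if V ≤ (sn f X).card then (1 : ℝ) else 0) ≤ 2 * η

/-- PAIR -/
def S_PAIR : Prop := ∀ (I : Type) [Fintype I] [DecidableEq I] (f : (I → Bool) → Bool)
  (K : ℕ) (y q η : ℝ), 0 < y → y ≤ 1 → 0 < q → q ≤ 1 → (∀ Y, NJ K q f Y ≤ η) →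
  (y * q) ^ 2 * Ex (vp (y / 2)) (fun X : I → Bool => ((jn f X).card : ℝ)) ≤
    (K : ℝ) ^ 2 + (Fintype.card I : ℝ) ^ 2 * η

/-- ARR -/
def S_ARR : Prop := ∀ n L k u : ℕ, 1 ≤ k → 1 ≤ u → k * u ≤ n → 4 * n ^ 2 ≤ 2 ^ L →
  ∃ (arr : (Slot k u → Bool) → Bool → Fin n → ℕ) (z : Fin k → Fin k → ℕ),
    (∀ X b i, arr X b i < 2 ^ L) ∧ (∀ j, Junta 1 (fun X => digits L (arr X) j)) ∧
    ∀ X i j, IsSum (arr X) (z i j) ↔ ∃ e, X (false, i, e) = true ∧ X (true, j, e) = true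

/-- QRY -/
def S_QRY : Prop := ∀ (k u s w T V : ℕ) (F : Fin s → Fin w → (Slot k u → Bool) → Bool)
  (nx : List (Fin w → Bool) → Fin s) (an : List (Fin w → Bool) → Bool) (i j : Fin k)
  (X : Slot k u → Bool), (∀ c b, (sn (F c b) X).card ≤ V) →
  (univ.filter (fun e : Fin u => an (rd nx (fun c b => F c b (pl2 i j e X)) T) ≠
    an (rd nx (fun c b => F c b X) T))).card ≤
  2 * (T * w * V) + ∑ c, ∑ b, (univ.filter (fun e : Fin u =>
    (((false, i, e), (true, j, e)) : Slot k u × Slot k u) ∈ jn (F c b) X)).card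

/-- UP -/
def S_UP : Prop := ∀ (k u s w T K V : ℕ) (F : Fin s → Fin w → (Slot k u → Bool) → Bool)
  (nx : Fin k → Fin k → List (Fin w → Bool) → Fin s)
  (an : Fin k → Fin k → List (Fin w → Bool) → Bool) (y q η : ℝ),
  0 < y → y ≤ 1 → 0 < q → q ≤ 1 → (∀ c b Y, NJ K q (F c b) Y ≤ η) →
  4 * ((K : ℝ) + 1) ≤ V * (y * q) →
  Ex (vp (y / 2)) (fun X : Slot k u → Bool => ∑ i : Fin k, ∑ j : Fin k,
    ((univ.filter (fun e : Fin u =>
      an i j (rd (nx i j) (fun c b => F c b (pl2 i j e X)) T) ≠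
      an i j (rd (nx i j) (fun c b => F c b X) T))).card : ℝ)) ≤
  (k : ℝ) ^ 2 * u * (2 * (s * w) * η) + (k : ℝ) ^ 2 * (2 * (T * w * V)) +
    (s * w) * ((K : ℝ) ^ 2 + (2 * (k * u) : ℝ) ^ 2 * η) / (y * q) ^ 2

/-- LOW: `R ω X i j` is the answer, `tr X i j` the truth. -/
def S_LOW : Prop := ∀ (k u : ℕ) (Ω : Type) [Fintype Ω] (p : Ω → ℝ)
  (R : Ω → (Slot k u → Bool) → Fin k → Fin k → Bool) (y δ : ℝ), 0 < y → y ≤ 1 →
  (∀ ω, 0 ≤ p ω) → ∑ ω, p ω = 1 →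
  (∀ X i j, 1 / 2 + δ ≤ ∑ ω, if (R ω X i j = true ↔
    ∃ e, X (false, i, e) = true ∧ X (true, j, e) = true) then p ω else 0) →
  (2 * δ - u * (y / 2) ^ 2) * ((k : ℝ) ^ 2 * u) ≤
    ∑ ω, p ω * Ex (vp (y / 2)) (fun X : Slot k u → Bool => ∑ i : Fin k, ∑ j : Fin k,
      ((univ.filter (fun e : Fin u => R ω (pl2 i j e X) i j ≠ R ω X i j)).card : ℝ))

/-- ARI -/
def S_ARI : Prop := ∀ (d a : ℕ) (ε : ℝ), 0 < ε → ∃ C : ℝ, 0 < C ∧
  ∀ (n L s w T : ℕ) (δ : ℝ), 1 ≤ n → L ≤ n ^ a → 1 ≤ s → 1 ≤ w → 1 ≤ T → 0 < δ → δ ≤ 1 / 2 →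
  (∀ (k u V m : ℕ) (q y : ℝ), 1 ≤ k → 1 ≤ u → k * u ≤ n → 1 ≤ m → 0 < q → q ≤ 1 / 3 →
    0 < y → y ≤ 1 → 4 * ((KK m d : ℝ) + 1) ≤ V * (y * q ^ d) →
    (2 * δ - u * (y / 2) ^ 2) * ((k : ℝ) ^ 2 * u) ≤
      (k : ℝ) ^ 2 * u * (2 * (s * w) * eta d m (n ^ a) (2 * (n * L)) q) +
      (k : ℝ) ^ 2 * (2 * (T * w * V)) +
      (s * w) * ((KK m d : ℝ) ^ 2 + (2 * (k * u) : ℝ) ^ 2 *
        eta d m (n ^ a) (2 * (n * L)) q) / (y * q ^ d) ^ 2) →
  δ ^ 11 * (n : ℝ) ^ (2 - ε) ≤ C * s * (w * T) ^ 5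

end Pool.Agent.J4H85.CD
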