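import Mathlib
import Pool.Agent.J4H85.CD.Stm

namespace Pool.Agent.J4H85.CD

open Finset DomAC0 H568R2

lemma uniq_rep {m r r' x x' : ℕ} (h1 : r < m) (h2 : r' < m) (h : r + m * x = r' + m * x') :
    r = r' ∧ x = x' := by
  have e1 : r = r' := by
    have := congrArg (· % m) h
    simpa [Nat.add_mul_mod_self_left, Nat.mod_eq_of_lt h1, Nat.mod_eq_of_lt h2] using this
  subst e1
  have h3 : m * x = m * x' := by omega
  exact ⟨rfl, Nat.eq_of_mul_eq_mul_left (by omega) h3⟩

/-- the lower part of the numbers -/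
def base (k u : ℕ) : Bool → Fin k × Fin u → ℕ
  | false, x => x.2 + 2 * u * x.1
  | true, x => (u - 1 - x.2) + 2 * u * (k * x.1)

/-- the arrays -/
def arrF (n L k u : ℕ) (X : Slot k u → Bool) (b : Bool) (t : Fin n) : ℕ :=
  if h : (t : ℕ) < k * u then
    base k u b (finProdFinEquiv.symm ⟨t, h⟩) +
      (if X (b, finProdFinEquiv.symm ⟨t, h⟩) = true then 0 else 2 ^ (L - 1))
  else 2 ^ (L - 1)

theorem t_ARR : S_ARR := by
  intro n L k u hk hu hku hL
  have hn : 1 ≤ n := le_trans (Nat.mul_pos hk hu) hku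
  have hL1 : 1 ≤ L := by
    rcases Nat.eq_zero_or_pos L with h | h
    · subst h; nlinarith
    · exact h
  have hLL : 2 ^ L = 2 * 2 ^ (L - 1) := by
    obtain ⟨L', rfl⟩ := Nat.exists_eq_add_of_le hL1
    rw [Nat.add_sub_cancel_left, pow_add, pow_one]
  have hP : 2 * n ^ 2 ≤ 2 ^ (L - 1) := by omega
  have hkn : k ≤ n := by nlinarith
  have hbig : 2 * u * (k * k) ≤ 2 ^ (L - 1) := by
    have : (k * u) * k ≤ n * n := Nat.mul_le_mul hku hkn
    nlinarith
  have hbase : ∀ b (x : Fin k × Fin u), base k u b x < 2 ^ (L - 1) := by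
    rintro b ⟨i, e⟩
    have hi := i.2
    have he := e.2
    cases b with
    | false =>
      show (e : ℕ) + 2 * u * i < 2 ^ (L - 1)
      have h1 : 2 * u * (i : ℕ) + 2 * u ≤ 2 * u * k := by
        have : (i : ℕ) + 1 ≤ k := hi
        calc 2 * u * (i : ℕ) + 2 * u = 2 * u * (i + 1) := by ring
          _ ≤ _ := Nat.mul_le_mul_left _ this
      have h2 : 2 * u * k ≤ 2 * u * (k * k) := Nat.mul_le_mul_left _ (by nlinarith)
      omega
    | true =>
      show (u - 1 - (e : ℕ)) + 2 * u * (k * i) < 2 ^ (L - 1)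
      have h1 : 2 * u * (k * (i : ℕ)) + 2 * u * k ≤ 2 * u * (k * k) := by
        have : (i : ℕ) + 1 ≤ k := hi
        calc 2 * u * (k * (i : ℕ)) + 2 * u * k = 2 * u * (k * (i + 1)) := by ring
          _ ≤ _ := Nat.mul_le_mul_left _ (Nat.mul_le_mul_left _ this)
      have h2 : 2 * u * 1 ≤ 2 * u * k := Nat.mul_le_mul_left _ hk
      omega
  have hz : ∀ i j : Fin k, (u - 1) + 2 * u * (i + k * j) < 2 ^ (L - 1) := by
    intro i j
    have hi := i.2
    have hj := j.2
    have h1 : (i : ℕ) + k * j + 1 ≤ k * k := by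
      have : k * ((j : ℕ) + 1) ≤ k * k := Nat.mul_le_mul_left _ hj
      have e : k * ((j : ℕ) + 1) = k * j + k := by ring
      omega
    have h2 : 2 * u * ((i : ℕ) + k * j) + 2 * u ≤ 2 * u * (k * k) := by
      calc 2 * u * ((i : ℕ) + k * j) + 2 * u = 2 * u * (i + k * j + 1) := by ring
        _ ≤ _ := Nat.mul_le_mul_left _ h1
    omega
  refine ⟨arrF n L k u, fun i j => (u - 1) + 2 * u * (i + k * j), ?_, ?_, ?_⟩
  · intro X b t
    unfold arrF
    split_ifs with h1 h2
    · have := hbase b (finProdFinEquiv.symm ⟨t, h1⟩)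
      omega
    · have := hbase b (finProdFinEquiv.symm ⟨t, h1⟩)
      omega
    · have : 0 < 2 ^ (L - 1) := by positivity
      omega
  · rintro ⟨b, t, l⟩
    by_cases ht : (t : ℕ) < k * u
    · refine ⟨{(b, finProdFinEquiv.symm ⟨t, ht⟩)}, by simp, ?_⟩
      intro x y hxy
      have hx := hxy _ (Finset.mem_singleton_self _)
      show (arrF n L k u x b t).testBit l = (arrF n L k u y b t).testBit l
      unfold arrF
      rw [dif_pos ht, dif_pos ht, hx]
    · refine ⟨∅, by simp, ?_⟩
      intro x y _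
      show (arrF n L k u x b t).testBit l = (arrF n L k u y b t).testBit l
      unfold arrF
      rw [dif_neg ht, dif_neg ht]
  · intro X i j
    constructor
    · rintro ⟨a, b, hab⟩
      have hzz := hz i j
      change arrF n L k u X false a + arrF n L k u X true b =
        (u - 1) + 2 * u * ((i : ℕ) + k * j) at hab
      unfold arrF at hab
      have hpos : 0 < 2 ^ (L - 1) := by positivity
      split_ifs at hab with h1 h2 h3 h4 h5
      all_goals first
        | omega
        | skip
      set x := finProdFinEquiv.symm (⟨a, h1⟩ : Fin (k * u)) with hx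
      set y := finProdFinEquiv.symm (⟨b, h3⟩ : Fin (k * u)) with hy
      obtain ⟨i', e⟩ := x
      obtain ⟨j', e'⟩ := y
      have hb1 : base k u false (i', e) = e + 2 * u * i' := rfl
      have hb2 : base k u true (j', e') = (u - 1 - e') + 2 * u * (k * j') := rfl
      rw [hb1, hb2] at hab
      have he := e.2
      have he' := e'.2
      have hab' : ((e : ℕ) + (u - 1 - e')) + 2 * u * (i' + k * j') =
          (u - 1) + 2 * u * (i + k * j) := by
        rw [← hab]; ring
      obtain ⟨hr, hxx⟩ := uniq_rep (by omega) (by omega) hab'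
      obtain ⟨hi, hj⟩ := uniq_rep i'.2 i.2 hxx
      have hee : e = e' := by apply Fin.ext; omega
      have hi' : i' = i := Fin.ext hi
      have hj' : j' = j := Fin.ext hj
      subst hee hi' hj'
      exact ⟨e, h2, h4⟩
    · rintro ⟨e, h1, h2⟩
      have ha : ((finProdFinEquiv (i, e) : Fin (k * u)) : ℕ) < n :=
        lt_of_lt_of_le (finProdFinEquiv (i, e)).2 hku
      have hb : ((finProdFinEquiv (j, e) : Fin (k * u)) : ℕ) < n :=
        lt_of_lt_of_le (finProdFinEquiv (j, e)).2 hku
      refine ⟨⟨_, ha⟩, ⟨_, hb⟩, ?_⟩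
      have e1 : arrF n L k u X false ⟨_, ha⟩ = e + 2 * u * i := by
        unfold arrF
        rw [dif_pos (show ((⟨_, ha⟩ : Fin n) : ℕ) < k * u from (finProdFinEquiv (i, e)).2)]
        have : finProdFinEquiv.symm (⟨((⟨_, ha⟩ : Fin n) : ℕ), (finProdFinEquiv (i, e)).2⟩ :
            Fin (k * u)) = (i, e) := by
          show finProdFinEquiv.symm (finProdFinEquiv (i, e)) = (i, e)
          rw [Equiv.symm_apply_apply]
        rw [this, if_pos h1, add_zero]
        rfl
      have e2 : arrF n L k u X true ⟨_, hb⟩ = (u - 1 - e) + 2 * u * (k * j) := by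
        unfold arrF
        rw [dif_pos (show ((⟨_, hb⟩ : Fin n) : ℕ) < k * u from (finProdFinEquiv (j, e)).2)]
        have : finProdFinEquiv.symm (⟨((⟨_, hb⟩ : Fin n) : ℕ), (finProdFinEquiv (j, e)).2⟩ :
            Fin (k * u)) = (j, e) := by
          show finProdFinEquiv.symm (finProdFinEquiv (j, e)) = (j, e)
          rw [Equiv.symm_apply_apply]
        rw [this, if_pos h2, add_zero]
        rfl
      rw [e1, e2]
      have he := e.2
      have : (e : ℕ) + (u - 1 - e) = u - 1 := by omega
      calc (e : ℕ) + 2 * u * i + ((u - 1 - e) + 2 * u * (k * j)) =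
          ((e : ℕ) + (u - 1 - e)) + 2 * u * (i + k * j) := by ring
        _ = _ := by rw [this]

end Pool.Agent.J4H85.CD
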