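import Mathlib
import Pool.Agent.J4H85.CD.Defs

/-!
3SUM-Indexing with a memory which is computed by circuits of constant depth from arbitrary predicates
of few numbers: definitions.
-/

namespace Pool.Agent.J4H85.CD

open DomAC0

/-- An atom: `r` places in the two arrays (`false` is the first array) and an arbitrary predicate of
`r` natural numbers. -/
abbrev Atom (n r : ℕ) : Type := (Fin r → Bool × Fin n) × ((Fin r → ℕ) → Bool)

/-- The truth values of the atoms for the arrays `A false` and `A true`: the predicate is applied to
the `r` numbers which are in the places of the atom. -/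
def atoms {n : ℕ} (r : ℕ) (A : Bool → Fin n → ℕ) : Atom n r → Bool :=
  fun x => x.2 (fun i => A (x.1 i).1 (x.1 i).2)

/-- A data structure for two arrays of `n` numbers with `s` cells of `w` bits. Every bit of every
cell is the value of a circuit whose inputs are atoms, that is arbitrary predicates of `r` numbers of
the two arrays. The query `z` reads cells adaptively; `next z` is the rule for the next probe and
`ans z` the rule for the answer, both are arbitrary functions. -/
structure AtomDS (n r s w : ℕ) where
  mem : Fin s → Fin w → Circuit (Atom n r)
  next : ℕ → List (Fin w → Bool) → Fin s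
  ans : ℕ → List (Fin w → Bool) → Bool

variable {n r s w : ℕ}

/-- The memory, if the arrays are `A false` and `A true`. -/
noncomputable def AtomDS.memory (D : AtomDS n r s w) (A : Bool → Fin n → ℕ) :
    Fin s → Fin w → Bool :=
  fun c b => (D.mem c b).eval (atoms r A)

/-- The answer to the query `z` after `T` probes. -/
noncomputable def AtomDS.answer (D : AtomDS n r s w) (T : ℕ) (A : Bool → Fin n → ℕ)
    (z : ℕ) : Bool :=
  D.ans z (rd (D.next z) (D.memory A) T)

open Classical in
/-- The random data structure `D` (`D ω` is chosen with probability `p ω`) answers every query `z`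
correctly with `T` probes with probability at least `1 / 2 + δ`, for all arrays of `n` numbers
below `2 ^ L`. -/
def SolvesBelow {Ω : Type} [Fintype Ω] (L : ℕ) (p : Ω → ℝ) (D : Ω → AtomDS n r s w) (T : ℕ)
    (δ : ℝ) : Prop :=
  (∀ ω, 0 ≤ p ω) ∧ ∑ ω, p ω = 1 ∧ ∀ A : Bool → Fin n → ℕ, (∀ b i, A b i < 2 ^ L) → ∀ z : ℕ,
    1 / 2 + δ ≤ ∑ ω, if ((D ω).answer T A z = true ↔ IsSum A z) then p ω else 0

end Pool.Agent.J4H85.CD
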