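import Mathlib
import Pool.Agent.TH163.AC3.Col
import Pool.Agent.J4H85.CD.Stm

/-!
Project CD, version 2 (decision trees): statements of the pieces (definitions only).
-/

namespace Pool.Agent.J4H85.CD

open Finset DomAC0 H568R2 Pool.Agent.TH163.AC3

open Classical in
/-- probability that the masked function does not get a decision tree of depth `K` -/
noncomputable def NT {I : Type} [Fintype I] [DecidableEq I] (K : ℕ) (q : ℝ)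
    (f : (I → Bool) → Bool) (Y : I → Bool) : ℝ :=
  Ex (wq q) (fun ρ : Restr I =>
    if ¬ HasDT K (rs (fun x => f (mask Y x)) ρ) then (1 : ℝ) else 0)

/-- the failure probability -/
noncomputable def et (d t S : ℕ) (q : ℝ) : ℝ := d * S * (12 * t * q) ^ (t + 1)

/-- JUN2: as `collapse'` in `TH163/AC3/Col.lean`, with the inputs `σ (mask Y x)` -/
def S_JUN2 : Prop := ∀ (I J : Type) [Fintype I] [DecidableEq I] (C : Circuit J)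
  (σ : (I → Bool) → (J → Bool)), (∀ j, Junta 1 (fun x => σ x j)) →
  ∀ (q : ℝ) (t d S : ℕ), 0 ≤ q → q ≤ 1 / 3 → 1 ≤ t → C.depth ≤ d → C.size ≤ S →
  ∀ Y : I → Bool, NT t (q ^ d) (fun x => C.eval (σ x)) Y ≤ et d t S q

/-- TAIL2 -/
def S_TAIL2 : Prop := ∀ (I : Type) [Fintype I] [DecidableEq I] (f : (I → Bool) → Bool)
  (K V : ℕ) (y q η : ℝ), 0 < y → y ≤ 1 → 0 < q → q ≤ 1 → (∀ Y, NT K q f Y ≤ η) →
  4 * ((K : ℝ) + 1) ≤ V * (y * q) →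
  Ex (vp (y / 2)) (fun X : I → Bool => if V ≤ (sn f X).card then (1 : ℝ) else 0) ≤ 2 * η

/-- PAIR2 -/
def S_PAIR2 : Prop := ∀ (I : Type) [Fintype I] [DecidableEq I] (f : (I → Bool) → Bool)
  (K : ℕ) (y q η : ℝ), 0 < y → y ≤ 1 → 0 < q → q ≤ 1 → (∀ Y, NT K q f Y ≤ η) →
  (y * q) ^ 2 * Ex (vp (y / 2)) (fun X : I → Bool => ((jn f X).card : ℝ)) ≤
    2 * (K : ℝ) ^ 2 + (Fintype.card I : ℝ) ^ 2 * η

/-- DTP: the count behind PAIR2 -/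
def S_DTP : Prop := ∀ (I : Type) [Fintype I] [DecidableEq I] (g : (I → Bool) → Bool) (K : ℕ),
  HasDT K g → ∀ D : I → Bool, (sn g D).card ≤ K ∧ (jn g D).card ≤ 2 * K ^ 2

/-- UP2 -/
def S_UP2 : Prop := ∀ (k u s w T K V : ℕ) (F : Fin s → Fin w → (Slot k u → Bool) → Bool)
  (nx : Fin k → Fin k → List (Fin w → Bool) → Fin s)
  (an : Fin k → Fin k → List (Fin w → Bool) → Bool) (y q η : ℝ),
  0 < y → y ≤ 1 → 0 < q → q ≤ 1 → (∀ c b Y, NT K q (F c b) Y ≤ η) →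
  4 * ((K : ℝ) + 1) ≤ V * (y * q) →
  Ex (vp (y / 2)) (fun X : Slot k u → Bool => ∑ i : Fin k, ∑ j : Fin k,
    ((univ.filter (fun e : Fin u =>
      an i j (rd (nx i j) (fun c b => F c b (pl2 i j e X)) T) ≠
      an i j (rd (nx i j) (fun c b => F c b X) T))).card : ℝ)) ≤
  (k : ℝ) ^ 2 * u * (2 * (s * w) * η) + (k : ℝ) ^ 2 * (2 * (T * w * V)) +
    (s * w) * (2 * (K : ℝ) ^ 2 + (2 * (k * u) : ℝ) ^ 2 * η) / (y * q) ^ 2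

/-- ARI2 -/
def S_ARI2 : Prop := ∀ (n s w T d κ : ℕ) (δ : ℝ), 1 ≤ n → n ≤ 2 ^ κ → 1 ≤ s → 1 ≤ w → 1 ≤ T →
  0 < δ → δ ≤ 1 / 2 →
  (∀ (k u V t : ℕ) (q y : ℝ), 1 ≤ k → 1 ≤ u → k * u ≤ n → 1 ≤ t → 0 < q → q ≤ 1 / 3 →
    0 < y → y ≤ 1 → 4 * ((t : ℝ) + 1) ≤ V * (y * q ^ d) →
    (2 * δ - u * (y / 2) ^ 2) * ((k : ℝ) ^ 2 * u) ≤
      (k : ℝ) ^ 2 * u * (2 * (s * w) * et d t (2 ^ κ) q) +
      (k : ℝ) ^ 2 * (2 * (T * w * V)) +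
      (s * w) * (2 * (t : ℝ) ^ 2 + (2 * (k * u) : ℝ) ^ 2 * et d t (2 ^ κ) q) /
        (y * q ^ d) ^ 2) →
  δ ^ 11 * (n : ℝ) ^ 2 ≤
    10 * (72 * κ + 24 * d + 24 : ℝ) ^ (6 * (d + 1)) * s * (w * T) ^ 5

end Pool.Agent.J4H85.CD
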