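import Mathlib
import Pool.Agent.J4H85.CD.Stm2
import Pool.Agent.J4H85.CD.LocDefs

/-!
Project CD, part 5 (atoms): statements of the pieces (definitions only).
-/

namespace Pool.Agent.J4H85.CD

open Finset DomAC0 H568R2 Pool.Agent.TH163.AC3

/-- JUN5 -/
def S_JUN5 : Prop := ∀ (I J : Type) [Fintype I] [DecidableEq I] (C : Circuit J)
  (σ : (I → Bool) → (J → Bool)) (r : ℕ), (∀ j, Junta r (fun x => σ x j)) →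
  ∀ (q : ℝ) (t d S : ℕ), 0 ≤ q → q ≤ 1 / 3 → 1 ≤ t → r ≤ t → C.depth ≤ d → C.size ≤ S →
  ∀ Y : I → Bool, NT t (q ^ d) (fun x => C.eval (σ x)) Y ≤ et d t S q

/-- ARR5 -/
def S_ARR5 : Prop := ∀ n L k u : ℕ, 1 ≤ k → 1 ≤ u → k * u ≤ n → 4 * n ^ 2 ≤ 2 ^ L →
  ∃ (arr : (Slot k u → Bool) → Bool → Fin n → ℕ) (z : Fin k → Fin k → ℕ),
    (∀ X b i, arr X b i < 2 ^ L) ∧
    (∀ b i, ∃ c : Slot k u, ∀ X X' : Slot k u → Bool, X c = X' c → arr X b i = arr X' b i) ∧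
    ∀ X i j, IsSum (arr X) (z i j) ↔ ∃ e, X (false, i, e) = true ∧ X (true, j, e) = true

/-- ARI5 -/
def S_ARI5 : Prop := ∀ (n s w T d κ r : ℕ) (δ : ℝ), 1 ≤ n → n ≤ 2 ^ κ → 1 ≤ s → 1 ≤ w →
  1 ≤ T → 1 ≤ r → 0 < δ → δ ≤ 1 / 2 →
  (∀ (k u V t : ℕ) (q y : ℝ), 1 ≤ k → 1 ≤ u → k * u ≤ n → 1 ≤ t → r ≤ t → 0 < q → q ≤ 1 / 3 →
    0 < y → y ≤ 1 → 4 * ((t : ℝ) + 1) ≤ V * (y * q ^ d) →
    (2 * δ - u * (y / 2) ^ 2) * ((k : ℝ) ^ 2 * u) ≤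
      (k : ℝ) ^ 2 * u * (2 * (s * w) * et d t (2 ^ κ) q) +
      (k : ℝ) ^ 2 * (2 * (T * w * V)) +
      (s * w) * (2 * (t : ℝ) ^ 2 + (2 * (k * u) : ℝ) ^ 2 * et d t (2 ^ κ) q) /
        (y * q ^ d) ^ 2) →
  δ ^ 11 * (n : ℝ) ^ 2 ≤
    10 * (72 * κ + 24 * d + 24 * r : ℝ) ^ (6 * (d + 1)) * s * (w * T) ^ 5

/-- The lower bound for the space. -/
def S_MAIN5 : Prop := ∀ (n L r s w T d κ : ℕ) (δ : ℝ), 1 ≤ n → n ≤ 2 ^ κ → 4 * n ^ 2 ≤ 2 ^ L →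
    1 ≤ r → 1 ≤ w → 1 ≤ T → 0 < δ → δ ≤ 1 / 2 →
    ∀ (Ω : Type) [Fintype Ω] (p : Ω → ℝ) (D : Ω → AtomDS n r s w),
    (∀ ω c b, ((D ω).mem c b).depth ≤ d ∧ ((D ω).mem c b).size ≤ 2 ^ κ) →
    SolvesBelow L p D T δ →
    δ ^ 11 * (n : ℝ) ^ 2 ≤
      10 * (72 * κ + 24 * d + 24 * r : ℝ) ^ (6 * (d + 1)) * s * (w * T) ^ 5

end Pool.Agent.J4H85.CD
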