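import Mathlib
import Pool.Agent.J4H85.CD.Defs

/-!
Set intersection queries with a memory which is computed by circuits of constant depth: definitions.
-/

namespace Pool.Agent.J4H85.CD

open DomAC0

/-- The membership bits of a family of `2 k` subsets of `{0, …, u - 1}`; the sets `F (false, i)` are
the first half of the family, the sets `F (true, j)` the second half. -/
def bits {k u : ℕ} (F : Bool × Fin k → Finset (Fin u)) : Bool × Fin k × Fin u → Bool :=
  fun x => decide (x.2.2 ∈ F (x.1, x.2.1))

/-- A data structure for families of `2 k` subsets of `{0, …, u - 1}` with `s` cells of `w` bits.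
Every bit of every cell is the value of a circuit on the membership bits. The query `(i, j)` reads
cells adaptively; `next i j` is the rule for the next probe, and `out i j` is the rule for the set
which is reported, both are arbitrary functions. -/
structure SetDS (k u s w : ℕ) where
  mem : Fin s → Fin w → Circuit (Bool × Fin k × Fin u)
  next : Fin k → Fin k → List (Fin w → Bool) → Fin s
  out : Fin k → Fin k → List (Fin w → Bool) → Finset (Fin u)

variable {k u s w : ℕ}

/-- The memory for the family `F`. -/
noncomputable def SetDS.memory (D : SetDS k u s w) (F : Bool × Fin k → Finset (Fin u)) :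
    Fin s → Fin w → Bool :=
  fun c b => (D.mem c b).eval (bits F)

/-- The set reported for the query `(i, j)` after `m` probes. -/
noncomputable def SetDS.report (D : SetDS k u s w) (m : ℕ) (F : Bool × Fin k → Finset (Fin u))
    (i j : Fin k) : Finset (Fin u) :=
  D.out i j (rd (D.next i j) (D.memory F) m)

open Classical in
/-- The random data structure `D` reports intersections: for every family `F` of total size at most
`N`, every pair of sets `F (false, i)` and `F (true, j)` which have at most `T` common elements, and
every `e`, with probability at least `1 / 2 + δ` the element `e` is in the set reported after `m`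
probes if and only if it is in both sets. -/
def Reports {Ω : Type} [Fintype Ω] (p : Ω → ℝ) (D : Ω → SetDS k u s w) (N T m : ℕ) (δ : ℝ) :
    Prop :=
  (∀ ω, 0 ≤ p ω) ∧ ∑ ω, p ω = 1 ∧ ∀ F : Bool × Fin k → Finset (Fin u), ∑ l, (F l).card ≤ N →
    ∀ i j, (F (false, i) ∩ F (true, j)).card ≤ T → ∀ e,
      1 / 2 + δ ≤ ∑ ω, if (e ∈ (D ω).report m F i j ↔ e ∈ F (false, i) ∩ F (true, j)) then p ω
        else 0

end Pool.Agent.J4H85.CD
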