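import Mathlib
import Pool.Agent.J4H85.CD.SetDefs

/-!
Set disjointness queries with a memory which is computed by circuits of constant depth: definitions.
-/

namespace Pool.Agent.J4H85.CD

open DomAC0

/-- A data structure for families of `2 k` subsets of `{0, …, u - 1}` with `s` cells of `w` bits.
Every bit of every cell is the value of a circuit on the membership bits. The query `(i, j)` reads
cells adaptively; `next i j` is the rule for the next probe, and `ans i j` is the rule for the
answer, both are arbitrary functions. -/
structure DisDS (k u s w : ℕ) where
  mem : Fin s → Fin w → Circuit (Bool × Fin k × Fin u)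
  next : Fin k → Fin k → List (Fin w → Bool) → Fin s
  ans : Fin k → Fin k → List (Fin w → Bool) → Bool

variable {k u s w : ℕ}

/-- The memory for the family `F`. -/
noncomputable def DisDS.memory (D : DisDS k u s w) (F : Bool × Fin k → Finset (Fin u)) :
    Fin s → Fin w → Bool :=
  fun c b => (D.mem c b).eval (bits F)

/-- The answer to the query `(i, j)` after `T` probes. -/
noncomputable def DisDS.answer (D : DisDS k u s w) (T : ℕ) (F : Bool × Fin k → Finset (Fin u))
    (i j : Fin k) : Bool :=
  D.ans i j (rd (D.next i j) (D.memory F) T)

open Classical in
/-- The random data structure `D` decides disjointness: for every family `F` of total size at most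
`N`, with probability at least `1 / 2 + δ` the answer after `T` probes is `true` if and only if the
sets `F (false, i)` and `F (true, j)` have a common element. -/
def Decides {Ω : Type} [Fintype Ω] (p : Ω → ℝ) (D : Ω → DisDS k u s w) (N T : ℕ) (δ : ℝ) :
    Prop :=
  (∀ ω, 0 ≤ p ω) ∧ ∑ ω, p ω = 1 ∧ ∀ F : Bool × Fin k → Finset (Fin u), ∑ l, (F l).card ≤ N →
    ∀ i j, 1 / 2 + δ ≤
      ∑ ω, if ((D ω).answer T F i j = true ↔ (F (false, i) ∩ F (true, j)).Nonempty) then p ω
        else 0

end Pool.Agent.J4H85.CD
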