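import Mathlib
import Pool.Agent.J4H85.CD.Stm

namespace Pool.Agent.J4H85.CD

open Finset DomAC0 H568R2

theorem t_JUN : S_JUN := by
  intro I J _ _ _ C σ hσ q m d S hq0 hq1 hm hd hS Y
  classical
  have hσ' : ∀ j, Junta 1 (fun x => (fun x => σ (mask Y x)) x j) := by
    intro j
    obtain ⟨A, hA, hdep⟩ := hσ j
    refine ⟨A, hA, fun x x' hx => ?_⟩
    apply hdep
    intro i hi
    unfold mask
    rw [hx i hi]
  have h := collapse C (fun x => σ (mask Y x)) hσ' hq0 hq1 hm d d le_rfl
  unfold NJ
  have hq01 : 0 ≤ q ^ d := by positivity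
  have hq11 : q ^ d ≤ 1 := pow_le_one₀ hq0 (by linarith)
  have hmono := Ex_mono (I := I) (wq_nonneg hq01 hq11)
    (F := fun ρ : Restr I => if ¬ Junta (KK m d) (rs (fun x => (fun x => C.eval (σ x)) (mask Y x)) ρ)
      then (1 : ℝ) else 0)
    (G := fun ρ : Restr I => if ¬ Good C (fun x => σ (mask Y x)) m d ρ then (1 : ℝ) else 0) (by
      intro ρ
      by_cases hG : Good C (fun x => σ (mask Y x)) m d ρ
      · have hJ : Junta (KK m d) (rs (fun x => (fun x => C.eval (σ x)) (mask Y x)) ρ) :=
          node_junta C (fun x => σ (mask Y x)) hσ' hm hG C.output hd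
        dsimp only
        rw [if_neg (not_not.2 hJ), if_neg (not_not.2 hG)]
      · dsimp only
        rw [if_pos hG]
        split_ifs <;> norm_num)
  refine hmono.trans (h.trans ?_)
  unfold eta
  apply mul_le_mul_of_nonneg_right _ (by positivity)
  apply mul_le_mul_of_nonneg_left _ (by positivity)
  exact_mod_cast Nat.mul_le_mul hS (by omega)

end Pool.Agent.J4H85.CD
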