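import Mathlib
import Pool.Agent.J4H85.CD.Stm5
import Pool.Agent.J4H4.CD.Jun2

/-! Project CD, piece JUN5 (after helper4's Jun2): inputs which depend on `r` bits. -/

set_option autoImplicit false

namespace Pool.Agent.J4H85.CD

open Finset DomAC0 H568R2 Pool.Agent.TH163.AC3

/-- a function of `r` bits has a decision tree of depth `r` -/
theorem junta_dt5 {I : Type} [DecidableEq I] {f : (I → Bool) → Bool} {r : ℕ} (hf : Junta r f) :
    HasDT r f := by
  obtain ⟨A, hA, hd⟩ := hf
  have h := hasDT_query A f 0 (by
    intro π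
    apply hasDT_const (f π)
    intro x
    apply hd
    intro i hi
    unfold ovr
    rw [if_pos hi])
  exact h.mono (by omega)

section
variable {I : Type} [Fintype I] [DecidableEq I] {J : Type}

omit [Fintype I] in
lemma node_dt5 (C : Circuit J) {τ : (I → Bool) → (J → Bool)} {r : ℕ}
    (hτ : ∀ j, Junta r (fun x => τ x j))
    {s j : ℕ} (hs : r ≤ s) {ρ : Restr I} (hG : Pool.Agent.J4H4.CD.Sh C τ s j ρ)
    (v : J ⊕ Fin C.size) (hv : C.nodeDepth v ≤ j) :
    HasDT s (rs (fun x => C.nodeVal (τ x) v) ρ) := by
  cases v with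
  | inl i => exact (junta_dt5 ((hτ i).rs ρ)).mono hs
  | inr g => exact hG g hv

open Classical in
theorem collapse5 (C : Circuit J) {τ : (I → Bool) → (J → Bool)}
    {r : ℕ} (hτ : ∀ j, Junta r (fun x => τ x j)) {q : ℝ} (h0 : 0 ≤ q) (h1 : q ≤ 1 / 3) {s : ℕ}
    (hs : r ≤ s) :
    ∀ j : ℕ, Ex (wq (q ^ j)) (fun ρ : Restr I => if ¬ Pool.Agent.J4H4.CD.Sh C τ s j ρ then (1 : ℝ) else 0) ≤
      j * C.size * (12 * s * q) ^ (s + 1) := by
  intro j
  induction j with
  | zero =>
    have hgood : ∀ ρ : Restr I, Pool.Agent.J4H4.CD.Sh C τ s 0 ρ := by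
      intro ρ g hg
      have : 0 < C.gateDepth g := by rw [Circuit.gateDepth]; omega
      omega
    simp only [hgood, not_true, if_false]
    unfold Ex
    simp
  | succ j ih =>
    rw [pow_succ, wq_cmp]
    set ε : ℝ := (12 * s * q) ^ (s + 1) with hε
    have hε0 : 0 ≤ ε := by positivity
    have hwj : ∀ a, 0 ≤ wq (q ^ j) a :=
      wq_nonneg (pow_nonneg h0 j) (pow_le_one₀ h0 (by linarith))
    have hw1 : ∀ a, 0 ≤ wq q a := wq_nonneg h0 (by linarith)
    have hin : ∀ ρ : Restr I, Ex (wq q) (fun κ : Restr I =>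
        if ¬ Pool.Agent.J4H4.CD.Sh C τ s (j + 1) (cmp ρ κ) then (1 : ℝ) else 0) ≤
        (if ¬ Pool.Agent.J4H4.CD.Sh C τ s j ρ then (1 : ℝ) else 0) + C.size * ε := by
      intro ρ
      by_cases hG : Pool.Agent.J4H4.CD.Sh C τ s j ρ
      · simp only [hG, not_true, if_false, zero_add]
        have hpt : ∀ κ : Restr I, (if ¬ Pool.Agent.J4H4.CD.Sh C τ s (j + 1) (cmp ρ κ) then (1 : ℝ) else 0) ≤
            ∑ g ∈ univ.filter (fun g : Fin C.size => C.gateDepth g ≤ j + 1),
              (if ¬ HasDT s (rs (rs (fun x => C.gateVal (τ x) g) ρ) κ) then (1 : ℝ) else 0) := by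
          intro κ
          have hnn : ∀ g ∈ univ.filter (fun g : Fin C.size => C.gateDepth g ≤ j + 1),
              (0 : ℝ) ≤ (if ¬ HasDT s (rs (rs (fun x => C.gateVal (τ x) g) ρ) κ)
                then (1 : ℝ) else 0) := by
            intro g _
            split_ifs <;> norm_num
          by_cases hGG : Pool.Agent.J4H4.CD.Sh C τ s (j + 1) (cmp ρ κ)
          · simp only [hGG, not_true, if_false]
            exact Finset.sum_nonneg hnn
          · simp only [hGG, not_false_iff, if_true]
            have hex : ∃ g : Fin C.size, C.gateDepth g ≤ j + 1 ∧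
                ¬ HasDT s (rs (fun x => C.gateVal (τ x) g) (cmp ρ κ)) := by
              by_contra hcon
              apply hGG
              intro g hg
              by_contra hJ
              exact hcon ⟨g, hg, hJ⟩
            obtain ⟨g, hg, hJ⟩ := hex
            rw [rs_cmp] at hJ
            refine le_trans ?_ (Finset.single_le_sum hnn
              (Finset.mem_filter.2 ⟨Finset.mem_univ g, hg⟩))
            rw [if_pos hJ]
        refine (Ex_mono hw1 hpt).trans ?_
        rw [Ex_sum]
        have hterm : ∀ g ∈ univ.filter (fun g : Fin C.size => C.gateDepth g ≤ j + 1),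
            Ex (wq q) (fun κ : Restr I => (if ¬ HasDT s
                (rs (rs (fun x => C.gateVal (τ x) g) ρ) κ) then (1 : ℝ) else 0)) ≤ ε := by
          intro g hgi
          have hgd : C.gateDepth g ≤ j + 1 := (Finset.mem_filter.1 hgi).2
          obtain ⟨b, hb⟩ := Pool.Agent.J4H4.CD.gate_cert'' C τ (K := s) (ρ := ρ) g (C.preds g).toList (by
            intro v hv
            apply node_dt5 C hτ hs hG
            have hvp : v ∈ C.preds g := by
              rwa [Finset.mem_toList] at hv
            have := depth_lt C g v hvp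
            omega)
          have h2 : (fun x => C.gateVal (τ x) g) = fun x => gfun C g (τ x) (C.preds g).toList := by
            funext x
            exact gateVal_eq C (τ x) g
          rw [← h2] at hb
          exact switching' h0 h1 hb
        refine (Finset.sum_le_card_nsmul _ _ _ hterm).trans ?_
        rw [nsmul_eq_mul]
        apply mul_le_mul_of_nonneg_right _ hε0
        have : (univ.filter (fun g : Fin C.size => C.gateDepth g ≤ j + 1)).card ≤ C.size := by
          refine (Finset.card_le_univ _).trans ?_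
          simp
        exact_mod_cast this
      · simp only [hG, not_false_iff, if_true]
        have h2 : Ex (wq q) (fun κ : Restr I =>
            if ¬ Pool.Agent.J4H4.CD.Sh C τ s (j + 1) (cmp ρ κ) then (1 : ℝ) else 0) ≤
            Ex (wq q) (fun _ : Restr I => (1 : ℝ)) := by
          apply Ex_mono hw1
          intro κ
          split_ifs <;> norm_num
        rw [Ex_const (wq_sum q)] at h2
        have : 0 ≤ C.size * ε := by positivity
        linarith
    refine (Ex_mono hwj hin).trans ?_
    rw [Ex_add, Ex_const (wq_sum (q ^ j))]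
    push_cast at ih ⊢
    linarith

end

theorem t_JUN5 : S_JUN5 := by
  classical
  intro I J _ _ C σ r hσ q t d S h0 h1 ht hrt hd hS Y
  have hτ : ∀ j, Junta r (fun x => σ (mask Y x) j) := by
    intro j
    obtain ⟨A, hA, hdep⟩ := hσ j
    refine ⟨A, hA, fun x y hxy => ?_⟩
    apply hdep
    intro i hi
    unfold mask
    rw [hxy i hi]
  have hc := collapse5 C (τ := fun x => σ (mask Y x)) hτ h0 h1 hrt d
  have hq0 : 0 ≤ q ^ d := pow_nonneg h0 d
  have hq1 : q ^ d ≤ 1 := pow_le_one₀ h0 (by linarith)
  unfold NT et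
  calc Ex (wq (q ^ d)) (fun ρ : Restr I =>
        if ¬ HasDT t (rs (fun x => C.eval (σ (mask Y x))) ρ) then (1 : ℝ) else 0)
      ≤ Ex (wq (q ^ d)) (fun ρ : Restr I =>
        if ¬ Pool.Agent.J4H4.CD.Sh C (fun x => σ (mask Y x)) t d ρ then (1 : ℝ) else 0) := by
        apply Ex_mono (wq_nonneg hq0 hq1)
        intro ρ
        by_cases hs : Pool.Agent.J4H4.CD.Sh C (fun x => σ (mask Y x)) t d ρ
        · have : HasDT t (rs (fun x => C.eval (σ (mask Y x))) ρ) :=
            node_dt5 C hτ hrt hs C.output hd
          simp only [hs, this, not_true, if_false]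
          exact le_refl _
        · simp only [hs, not_false_iff, if_true]
          split_ifs <;> norm_num
    _ ≤ d * C.size * (12 * t * q) ^ (t + 1) := hc
    _ ≤ d * S * (12 * t * q) ^ (t + 1) := by
        have : (C.size : ℝ) ≤ S := by exact_mod_cast hS
        gcongr

end Pool.Agent.J4H85.CD
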