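import Mathlib
import Pool.Agent.J4H85.CD.Stm

namespace Pool.Agent.J4H85.CD

open Finset DomAC0 H568R2

/-- The lower bound for the space. -/
def S_MAIN : Prop := ∀ (d a : ℕ) (ε : ℝ), 0 < ε → ∃ C : ℝ, 0 < C ∧
  ∀ (n L s w T : ℕ) (δ : ℝ), 1 ≤ n → 4 * n ^ 2 ≤ 2 ^ L → L ≤ n ^ a → 1 ≤ w → 1 ≤ T →
    0 < δ → δ ≤ 1 / 2 →
    ∀ (Ω : Type) [Fintype Ω] (p : Ω → ℝ) (D : Ω → CircuitDS n L s w),
    (∀ ω c b, ((D ω).mem c b).depth ≤ d ∧ ((D ω).mem c b).size ≤ n ^ a) → Solves p D T δ →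
    δ ^ 11 * (n : ℝ) ^ (2 - ε) ≤ C * s * (w * T) ^ 5

theorem t_MAIN (hJUN : S_JUN) (hARR : S_ARR) (hUP : S_UP) (hLOW : S_LOW) (hARI : S_ARI) :
    S_MAIN := by
  intro d a ε hε
  obtain ⟨C, hC, h⟩ := hARI d a ε hε
  refine ⟨C, hC, ?_⟩
  intro n L s w T δ hn hL hLa hw hT hδ hδ2 Ω _ p D hDS hsol
  obtain ⟨hp0, hp1, hsol⟩ := hsol
  have hne : Nonempty Ω := by
    by_contra hcon
    rw [not_nonempty_iff] at hcon
    rw [Finset.univ_eq_empty, Finset.sum_empty] at hp1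
    exact absurd hp1 (by norm_num)
  have hs : 1 ≤ s := by
    obtain ⟨ω⟩ := hne
    have := ((D ω).next 0 []).2
    omega
  apply h n L s w T δ hn hLa hs hw hT hδ hδ2
  intro k u V m q y hk hu hku hm hq0 hq1 hy0 hy1 hV
  obtain ⟨arr, z, hlt, hjun, hsum⟩ := hARR n L k u hk hu hku hL
  have hlow := hLOW k u Ω p (fun ω X i j => (D ω).answer T (arr X) (z i j)) y δ hy0 hy1 hp0 hp1
    (by
      intro X i j
      refine (hsol (arr X) (hlt X) (z i j)).trans (le_of_eq ?_)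
      refine Finset.sum_congr rfl fun ω _ => ?_
      by_cases hh : ((D ω).answer T (arr X) (z i j) = true ↔ IsSum (arr X) (z i j))
      · rw [if_pos hh, if_pos (hh.trans (hsum X i j))]
      · rw [if_neg hh, if_neg (fun h' => hh (h'.trans (hsum X i j).symm))])
  refine hlow.trans ?_
  set B : ℝ := (k : ℝ) ^ 2 * u * (2 * (s * w) * eta d m (n ^ a) (2 * (n * L)) q) +
      (k : ℝ) ^ 2 * (2 * (T * w * V)) +
      (s * w) * ((KK m d : ℝ) ^ 2 + (2 * (k * u) : ℝ) ^ 2 *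
        eta d m (n ^ a) (2 * (n * L)) q) / (y * q ^ d) ^ 2 with hB
  have hup : ∀ ω, Ex (vp (y / 2)) (fun X : Slot k u → Bool => ∑ i : Fin k, ∑ j : Fin k,
      ((univ.filter (fun e : Fin u => (D ω).answer T (arr (pl2 i j e X)) (z i j) ≠
        (D ω).answer T (arr X) (z i j))).card : ℝ)) ≤ B := by
    intro ω
    refine hUP k u s w T (KK m d) V
      (fun c b X => ((D ω).mem c b).eval (digits L (arr X)))
      (fun i j => (D ω).next (z i j)) (fun i j => (D ω).ans (z i j)) y (q ^ d)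
      (eta d m (n ^ a) (2 * (n * L)) q) hy0 hy1 (by positivity)
      (pow_le_one₀ hq0.le (by linarith)) ?_ hV
    intro c b Y
    have hc : Fintype.card (Dig n L) = 2 * (n * L) := by simp
    have := hJUN (Slot k u) (Dig n L) ((D ω).mem c b) (fun X => digits L (arr X)) hjun q m d
      (n ^ a) hq0.le hq1 hm (hDS ω c b).1 (hDS ω c b).2 Y
    rw [hc] at this
    exact this
  calc ∑ ω, p ω * Ex (vp (y / 2)) (fun X : Slot k u → Bool => ∑ i : Fin k, ∑ j : Fin k,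
      ((univ.filter (fun e : Fin u => (D ω).answer T (arr (pl2 i j e X)) (z i j) ≠
        (D ω).answer T (arr X) (z i j))).card : ℝ)) ≤ ∑ ω, p ω * B :=
        Finset.sum_le_sum fun ω _ => mul_le_mul_of_nonneg_left (hup ω) (hp0 ω)
    _ = B := by rw [← Finset.sum_mul, hp1, one_mul]

end Pool.Agent.J4H85.CD
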