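import Mathlib
import Pool.Agent.J4H85.CD.Stm2
import Pool.Agent.J4H85.CD.SetDefs

/-!
Project CD, part 3 (set intersection queries): statements of the pieces (definitions only).
-/

namespace Pool.Agent.J4H85.CD

open Finset DomAC0 H568R2 Pool.Agent.TH163.AC3

/-- QRYL: as QRY, for the lists of contents -/
def S_QRYL : Prop := ∀ (k u s w T V : ℕ) (F : Fin s → Fin w → (Slot k u → Bool) → Bool)
  (nx : List (Fin w → Bool) → Fin s) (i j : Fin k)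
  (X : Slot k u → Bool), (∀ c b, (sn (F c b) X).card ≤ V) →
  (univ.filter (fun e : Fin u => rd nx (fun c b => F c b (pl2 i j e X)) T ≠
    rd nx (fun c b => F c b X) T)).card ≤
  2 * (T * w * V) + ∑ c, ∑ b, (univ.filter (fun e : Fin u =>
    (((false, i, e), (true, j, e)) : Slot k u × Slot k u) ∈ jn (F c b) X)).card

/-- UP3 -/
def S_UP3 : Prop := ∀ (k u s w T K V : ℕ) (F : Fin s → Fin w → (Slot k u → Bool) → Bool)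
  (nx : Fin k → Fin k → List (Fin w → Bool) → Fin s) (y q η : ℝ),
  0 < y → y ≤ 1 → 0 < q → q ≤ 1 → (∀ c b Y, NT K q (F c b) Y ≤ η) →
  4 * ((K : ℝ) + 1) ≤ V * (y * q) →
  Ex (vp (y / 2)) (fun X : Slot k u → Bool => ∑ i : Fin k, ∑ j : Fin k,
    ((univ.filter (fun e : Fin u =>
      rd (nx i j) (fun c b => F c b (pl2 i j e X)) T ≠
      rd (nx i j) (fun c b => F c b X) T)).card : ℝ)) ≤
  (k : ℝ) ^ 2 * u * (2 * (s * w) * η) + (k : ℝ) ^ 2 * (2 * (T * w * V)) +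
    (s * w) * (2 * (K : ℝ) ^ 2 + (2 * (k * u) : ℝ) ^ 2 * η) / (y * q) ^ 2

/-- LOW3: `R ω X i j e` says whether `e` is reported. -/
def S_LOW3 : Prop := ∀ (k u N T : ℕ) (Ω : Type) [Fintype Ω] (p : Ω → ℝ)
  (R : Ω → (Slot k u → Bool) → Fin k → Fin k → Fin u → Bool) (y δ : ℝ), 0 < y → y ≤ 1 →
  2 ≤ N → 1 ≤ T → (∀ ω, 0 ≤ p ω) → ∑ ω, p ω = 1 →
  (∀ (X : Slot k u → Bool) (i j : Fin k) (e : Fin u),
    (univ.filter (fun l : Slot k u => X l = true)).card ≤ N →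
    (univ.filter (fun e : Fin u => X (false, i, e) = true ∧ X (true, j, e) = true)).card ≤ T →
    1 / 2 + δ ≤ ∑ ω, if (R ω X i j e = true ↔ (X (false, i, e) = true ∧ X (true, j, e) = true))
      then p ω else 0) →
  (2 * δ - (y / 2) ^ 2 - 2 * (k * u * y) / N - u * (y / 2) ^ 2 / T) * ((k : ℝ) ^ 2 * u) ≤
    ∑ ω, p ω * Ex (vp (y / 2)) (fun X : Slot k u → Bool => ∑ i : Fin k, ∑ j : Fin k,
      ((univ.filter (fun e : Fin u => R ω (pl2 i j e X) i j e ≠ R ω X i j e)).card : ℝ))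

/-- ARI3 -/
def S_ARI3 : Prop := ∀ (N w T m d κ : ℕ) (δ : ℝ), 2 ≤ N → N ≤ 2 ^ κ → 1 ≤ w → 1 ≤ T →
  T ≤ m → 0 < δ → δ ≤ 1 / 2 →
  640 * (120 * κ + 24 * d + 24 : ℝ) ^ (d + 1) * (w * m) ≤ δ ^ 2 * N →
  ∃ (k u V t : ℕ) (q y : ℝ), 1 ≤ k ∧ 1 ≤ u ∧ 1 ≤ t ∧ 0 < q ∧ q ≤ 1 / 3 ∧ 0 < y ∧ y ≤ 1 ∧
    4 * ((t : ℝ) + 1) ≤ V * (y * q ^ d) ∧ ∀ s : ℕ, 1 ≤ s →
    (2 * δ - (y / 2) ^ 2 - 2 * (k * u * y) / N - u * (y / 2) ^ 2 / T) * ((k : ℝ) ^ 2 * u) ≤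
      (k : ℝ) ^ 2 * u * (2 * (s * w) * et d t (2 ^ κ) q) +
      (k : ℝ) ^ 2 * (2 * (m * w * V)) +
      (s * w) * (2 * (t : ℝ) ^ 2 + (2 * (k * u) : ℝ) ^ 2 * et d t (2 ^ κ) q) /
        (y * q ^ d) ^ 2 →
    δ ^ 6 * (N : ℝ) ^ 2 * T ≤
      500 * (120 * κ + 24 * d + 24 : ℝ) ^ (4 * (d + 1)) * s * w ^ 3 * m ^ 2

/-- The lower bound for set intersection queries. -/
def S_MAIN3 : Prop := ∀ (N w T m d κ : ℕ) (δ : ℝ), 2 ≤ N → N ≤ 2 ^ κ → 1 ≤ w → 1 ≤ T →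
  T ≤ m → 0 < δ → δ ≤ 1 / 2 →
  640 * (120 * κ + 24 * d + 24 : ℝ) ^ (d + 1) * (w * m) ≤ δ ^ 2 * N →
  ∃ k u : ℕ, 1 ≤ k ∧ 1 ≤ u ∧ ∀ (s : ℕ) (Ω : Type) [Fintype Ω] (p : Ω → ℝ)
    (D : Ω → SetDS k u s w),
    (∀ ω c b, ((D ω).mem c b).depth ≤ d ∧ ((D ω).mem c b).size ≤ 2 ^ κ) →
    Reports p D N T m δ →
    δ ^ 6 * (N : ℝ) ^ 2 * T ≤
      500 * (120 * κ + 24 * d + 24 : ℝ) ^ (4 * (d + 1)) * s * w ^ 3 * m ^ 2

end Pool.Agent.J4H85.CD
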