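import Mathlib
import Pool.Agent.J4H85.CD.Stm3

namespace Pool.Agent.J4H85.CD

open Finset DomAC0 H568R2

/-- the family given by the present slots -/
def fam {k u : ℕ} (X : Slot k u → Bool) : Bool × Fin k → Finset (Fin u) :=
  fun l => univ.filter (fun e => X (l.1, l.2, e) = true)

lemma bits_fam {k u : ℕ} (X : Slot k u → Bool) : bits (fam X) = X := by
  funext x
  obtain ⟨b, i, e⟩ := x
  simp [bits, fam]

theorem t_MAIN3 (hJUN : S_JUN2) (hUP : S_UP3) (hLOW : S_LOW3) (hARI : S_ARI3) :
    S_MAIN3 := by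
  intro N w T m d κ δ hN hκ hw hT hTm hδ hδ2 hbig
  obtain ⟨k, u, V, t, q, y, hk, hu, ht, hq0, hq1, hy0, hy1, hV, hfin⟩ :=
    hARI N w T m d κ δ hN hκ hw hT hTm hδ hδ2 hbig
  refine ⟨k, u, hk, hu, ?_⟩
  intro s Ω _ p D hDS hsol
  classical
  obtain ⟨hp0, hp1, hsol⟩ := hsol
  have hne : Nonempty Ω := by
    by_contra hcon
    rw [not_nonempty_iff] at hcon
    rw [Finset.univ_eq_empty, Finset.sum_empty] at hp1
    exact absurd hp1 (by norm_num)
  have hs : 1 ≤ s := by
    obtain ⟨ω⟩ := hne
    have := ((D ω).next ⟨0, hk⟩ ⟨0, hk⟩ []).2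
    omega
  apply hfin s hs
  have hcardX : ∀ X : Slot k u → Bool, ∑ l, (fam X l).card =
      (univ.filter (fun l : Slot k u => X l = true)).card := by
    intro X
    rw [Fintype.sum_prod_type]
    have h1 : (univ.filter (fun l : Slot k u => X l = true)).card =
        ∑ l : Slot k u, if X l = true then 1 else 0 := by
      rw [Finset.card_filter]
    rw [h1, Fintype.sum_prod_type]
    refine Finset.sum_congr rfl fun b _ => ?_
    rw [Fintype.sum_prod_type]
    refine Finset.sum_congr rfl fun i _ => ?_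
    rw [fam, Finset.card_filter]
  have hinter : ∀ (X : Slot k u → Bool) (i j : Fin k), fam X (false, i) ∩ fam X (true, j) =
      univ.filter (fun e : Fin u => X (false, i, e) = true ∧ X (true, j, e) = true) := by
    intro X i j
    ext e
    simp [fam]
  have hlow := hLOW k u N T Ω p
    (fun ω X i j e => decide (e ∈ (D ω).report m (fam X) i j)) y δ hy0 hy1 hN hT hp0 hp1
    (by
      intro X i j e h1 h2
      refine (hsol (fam X) (by rw [hcardX]; exact h1) i j (by rw [hinter]; exact h2) e).trans
        (le_of_eq ?_)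
      refine Finset.sum_congr rfl fun ω _ => ?_
      have hiff : (e ∈ (D ω).report m (fam X) i j ↔ e ∈ fam X (false, i) ∩ fam X (true, j)) ↔
          (decide (e ∈ (D ω).report m (fam X) i j) = true ↔
            (X (false, i, e) = true ∧ X (true, j, e) = true)) := by
        rw [hinter]
        simp
      by_cases hh : (e ∈ (D ω).report m (fam X) i j ↔ e ∈ fam X (false, i) ∩ fam X (true, j))
      · rw [if_pos hh, if_pos (hiff.1 hh)]
      · rw [if_neg hh, if_neg (fun h' => hh (hiff.2 h'))])
  refine hlow.trans ?_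
  set B : ℝ := (k : ℝ) ^ 2 * u * (2 * (s * w) * et d t (2 ^ κ) q) +
      (k : ℝ) ^ 2 * (2 * (m * w * V)) +
      (s * w) * (2 * (t : ℝ) ^ 2 + (2 * (k * u) : ℝ) ^ 2 * et d t (2 ^ κ) q) /
        (y * q ^ d) ^ 2 with hB
  have hup : ∀ ω, Ex (vp (y / 2)) (fun X : Slot k u → Bool => ∑ i : Fin k, ∑ j : Fin k,
      ((univ.filter (fun e : Fin u => decide (e ∈ (D ω).report m (fam (pl2 i j e X)) i j) ≠
        decide (e ∈ (D ω).report m (fam X) i j))).card : ℝ)) ≤ B := by
    intro ω
    refine le_trans (Ex_mono (vp_nonneg (by linarith) (by linarith)) (fun X => ?_))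
      (hUP k u s w m t V
        (fun c b X => ((D ω).mem c b).eval X)
        (fun i j => (D ω).next i j) y (q ^ d)
        (et d t (2 ^ κ) q) hy0 hy1 (by positivity)
        (pow_le_one₀ hq0.le (by linarith)) ?_ hV)
    · refine Finset.sum_le_sum fun i _ => Finset.sum_le_sum fun j _ => ?_
      have hsub : (univ.filter (fun e : Fin u =>
          decide (e ∈ (D ω).report m (fam (pl2 i j e X)) i j) ≠
          decide (e ∈ (D ω).report m (fam X) i j))).card ≤
          (univ.filter (fun e : Fin u =>
            rd ((D ω).next i j) (fun c b => ((D ω).mem c b).eval (pl2 i j e X)) m ≠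
            rd ((D ω).next i j) (fun c b => ((D ω).mem c b).eval X) m)).card := by
        apply Finset.card_le_card
        intro e he
        rw [Finset.mem_filter] at he ⊢
        refine ⟨he.1, fun hcon => he.2 ?_⟩
        have h1 : (D ω).report m (fam (pl2 i j e X)) i j = (D ω).report m (fam X) i j := by
          unfold SetDS.report SetDS.memory
          rw [bits_fam, bits_fam, hcon]
        rw [h1]
      exact_mod_cast hsub
    · intro c b Y
      exact hJUN (Slot k u) (Slot k u) ((D ω).mem c b) (fun X => X)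
        (fun j => ⟨{j}, by simp, fun x y hxy => hxy j (Finset.mem_singleton_self j)⟩) q t d
        (2 ^ κ) hq0.le hq1 ht (hDS ω c b).1 (hDS ω c b).2 Y
  calc ∑ ω, p ω * Ex (vp (y / 2)) (fun X : Slot k u → Bool => ∑ i : Fin k, ∑ j : Fin k,
      ((univ.filter (fun e : Fin u => decide (e ∈ (D ω).report m (fam (pl2 i j e X)) i j) ≠
        decide (e ∈ (D ω).report m (fam X) i j))).card : ℝ)) ≤ ∑ ω, p ω * B :=
        Finset.sum_le_sum fun ω _ => mul_le_mul_of_nonneg_left (hup ω) (hp0 ω)
    _ = B := by rw [← Finset.sum_mul, hp1, one_mul]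

end Pool.Agent.J4H85.CD
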