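import Mathlib
import Pool.Agent.J4H85.CD.Stm3
import Pool.Agent.J4H85.CD.DisDefs

/-!
Project CD, part 4 (set disjointness): statements of the pieces (definitions only).
-/

namespace Pool.Agent.J4H85.CD

open Finset DomAC0 H568R2 Pool.Agent.TH163.AC3

/-- LOW4: `R ω X i j` is the answer. -/
def S_LOW4 : Prop := ∀ (k u N : ℕ) (Ω : Type) [Fintype Ω] (p : Ω → ℝ)
  (R : Ω → (Slot k u → Bool) → Fin k → Fin k → Bool) (y δ : ℝ), 0 < y → y ≤ 1 →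
  2 ≤ N → (∀ ω, 0 ≤ p ω) → ∑ ω, p ω = 1 →
  (∀ (X : Slot k u → Bool) (i j : Fin k),
    (univ.filter (fun l : Slot k u => X l = true)).card ≤ N →
    1 / 2 + δ ≤ ∑ ω, if (R ω X i j = true ↔
      ∃ e, X (false, i, e) = true ∧ X (true, j, e) = true) then p ω else 0) →
  (2 * δ - u * (y / 2) ^ 2 - 2 * (k * u * y) / N) * ((k : ℝ) ^ 2 * u) ≤
    ∑ ω, p ω * Ex (vp (y / 2)) (fun X : Slot k u → Bool => ∑ i : Fin k, ∑ j : Fin k,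
      ((univ.filter (fun e : Fin u => R ω (pl2 i j e X) i j ≠ R ω X i j)).card : ℝ))

/-- ARI4 -/
def S_ARI4 : Prop := ∀ (N w T d κ : ℕ) (δ : ℝ), 2 ≤ N → N ≤ 2 ^ κ → 1 ≤ w → 1 ≤ T →
  0 < δ → δ ≤ 1 / 2 →
  28 * (120 * κ + 24 * d + 24 : ℝ) ^ (d + 1) * (w * T) ≤ δ ^ 2 * N →
  ∃ (k u V t : ℕ) (q y : ℝ), 1 ≤ k ∧ 1 ≤ u ∧ 1 ≤ t ∧ 0 < q ∧ q ≤ 1 / 3 ∧ 0 < y ∧ y ≤ 1 ∧
    4 * ((t : ℝ) + 1) ≤ V * (y * q ^ d) ∧ ∀ s : ℕ, 1 ≤ s →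
    (2 * δ - u * (y / 2) ^ 2 - 2 * (k * u * y) / N) * ((k : ℝ) ^ 2 * u) ≤
      (k : ℝ) ^ 2 * u * (2 * (s * w) * et d t (2 ^ κ) q) +
      (k : ℝ) ^ 2 * (2 * (T * w * V)) +
      (s * w) * (2 * (t : ℝ) ^ 2 + (2 * (k * u) : ℝ) ^ 2 * et d t (2 ^ κ) q) /
        (y * q ^ d) ^ 2 →
    δ ^ 7 * (N : ℝ) ^ 2 ≤
      32 * (120 * κ + 24 * d + 24 : ℝ) ^ (4 * (d + 1)) * s * w ^ 3 * T ^ 2

/-- The lower bound for set disjointness queries. -/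
def S_MAIN4 : Prop := ∀ (N w T d κ : ℕ) (δ : ℝ), 2 ≤ N → N ≤ 2 ^ κ → 1 ≤ w → 1 ≤ T →
  0 < δ → δ ≤ 1 / 2 →
  28 * (120 * κ + 24 * d + 24 : ℝ) ^ (d + 1) * (w * T) ≤ δ ^ 2 * N →
  ∃ k u : ℕ, 1 ≤ k ∧ 1 ≤ u ∧ ∀ (s : ℕ) (Ω : Type) [Fintype Ω] (p : Ω → ℝ)
    (D : Ω → DisDS k u s w),
    (∀ ω c b, ((D ω).mem c b).depth ≤ d ∧ ((D ω).mem c b).size ≤ 2 ^ κ) →
    Decides p D N T δ →
    δ ^ 7 * (N : ℝ) ^ 2 ≤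
      32 * (120 * κ + 24 * d + 24 : ℝ) ^ (4 * (d + 1)) * s * w ^ 3 * T ^ 2

end Pool.Agent.J4H85.CD
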