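import Mathlib
import Pool.Agent.J4H85.CD.Stm4
import Pool.Agent.J4H85.CD.Main3

namespace Pool.Agent.J4H85.CD

open Finset DomAC0 H568R2

lemma card_fam {k u : ℕ} (X : Slot k u → Bool) : ∑ l, (fam X l).card =
      (univ.filter (fun l : Slot k u => X l = true)).card := by
  rw [Fintype.sum_prod_type]
  have h1 : (univ.filter (fun l : Slot k u => X l = true)).card =
      ∑ l : Slot k u, if X l = true then 1 else 0 := by
    rw [Finset.card_filter]
  rw [h1, Fintype.sum_prod_type]
  refine Finset.sum_congr rfl fun b _ => ?_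
  rw [Fintype.sum_prod_type]
  refine Finset.sum_congr rfl fun i _ => ?_
  rw [fam, Finset.card_filter]

theorem t_MAIN4 (hJUN : S_JUN2) (hUP : S_UP2) (hLOW : S_LOW4) (hARI : S_ARI4) :
    S_MAIN4 := by
  intro N w T d κ δ hN hκ hw hT hδ hδ2 hbig
  obtain ⟨k, u, V, t, q, y, hk, hu, ht, hq0, hq1, hy0, hy1, hV, hfin⟩ :=
    hARI N w T d κ δ hN hκ hw hT hδ hδ2 hbig
  refine ⟨k, u, hk, hu, ?_⟩
  intro s Ω _ p D hDS hsol
  classical
  obtain ⟨hp0, hp1, hsol⟩ := hsol
  have hne : Nonempty Ω := by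
    by_contra hcon
    rw [not_nonempty_iff] at hcon
    rw [Finset.univ_eq_empty, Finset.sum_empty] at hp1
    exact absurd hp1 (by norm_num)
  have hs : 1 ≤ s := by
    obtain ⟨ω⟩ := hne
    have := ((D ω).next ⟨0, hk⟩ ⟨0, hk⟩ []).2
    omega
  apply hfin s hs
  have hinter : ∀ (X : Slot k u → Bool) (i j : Fin k),
      (fam X (false, i) ∩ fam X (true, j)).Nonempty ↔
      ∃ e, X (false, i, e) = true ∧ X (true, j, e) = true := by
    intro X i j
    constructor
    · rintro ⟨e, he⟩
      refine ⟨e, ?_⟩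
      simpa [fam] using he
    · rintro ⟨e, he⟩
      refine ⟨e, ?_⟩
      simpa [fam] using he
  have hlow := hLOW k u N Ω p
    (fun ω X i j => (D ω).answer T (fam X) i j) y δ hy0 hy1 hN hp0 hp1
    (by
      intro X i j h1
      refine (hsol (fam X) (by rw [card_fam]; exact h1) i j).trans (le_of_eq ?_)
      refine Finset.sum_congr rfl fun ω _ => ?_
      by_cases hh : ((D ω).answer T (fam X) i j = true ↔
          (fam X (false, i) ∩ fam X (true, j)).Nonempty)
      · rw [if_pos hh, if_pos (hh.trans (hinter X i j))]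
      · rw [if_neg hh, if_neg (fun h' => hh (h'.trans (hinter X i j).symm))])
  refine hlow.trans ?_
  set B : ℝ := (k : ℝ) ^ 2 * u * (2 * (s * w) * et d t (2 ^ κ) q) +
      (k : ℝ) ^ 2 * (2 * (T * w * V)) +
      (s * w) * (2 * (t : ℝ) ^ 2 + (2 * (k * u) : ℝ) ^ 2 * et d t (2 ^ κ) q) /
        (y * q ^ d) ^ 2 with hB
  have hup : ∀ ω, Ex (vp (y / 2)) (fun X : Slot k u → Bool => ∑ i : Fin k, ∑ j : Fin k,
      ((univ.filter (fun e : Fin u => (D ω).answer T (fam (pl2 i j e X)) i j ≠
        (D ω).answer T (fam X) i j)).card : ℝ)) ≤ B := by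
    intro ω
    have h1 := hUP k u s w T t V
        (fun c b X => ((D ω).mem c b).eval X)
        (fun i j => (D ω).next i j) (fun i j => (D ω).ans i j) y (q ^ d)
        (et d t (2 ^ κ) q) hy0 hy1 (by positivity)
        (pow_le_one₀ hq0.le (by linarith)) (by
          intro c b Y
          exact hJUN (Slot k u) (Slot k u) ((D ω).mem c b) (fun X => X)
            (fun j => ⟨{j}, by simp, fun x y hxy => hxy j (Finset.mem_singleton_self j)⟩) q t d
            (2 ^ κ) hq0.le hq1 ht (hDS ω c b).1 (hDS ω c b).2 Y) hV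
    have h2 : ∀ (X : Slot k u → Bool) (i j : Fin k), (D ω).answer T (fam X) i j =
        (D ω).ans i j (rd ((D ω).next i j) (fun c b => ((D ω).mem c b).eval X) T) := by
      intro X i j
      unfold DisDS.answer DisDS.memory
      rw [bits_fam]
    simp only [h2]
    exact h1
  calc ∑ ω, p ω * Ex (vp (y / 2)) (fun X : Slot k u → Bool => ∑ i : Fin k, ∑ j : Fin k,
      ((univ.filter (fun e : Fin u => (D ω).answer T (fam (pl2 i j e X)) i j ≠
        (D ω).answer T (fam X) i j)).card : ℝ)) ≤ ∑ ω, p ω * B :=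
        Finset.sum_le_sum fun ω _ => mul_le_mul_of_nonneg_left (hup ω) (hp0 ω)
    _ = B := by rw [← Finset.sum_mul, hp1, one_mul]

end Pool.Agent.J4H85.CD
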