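import Mathlib
import Pool.Agent.J4H85.CD.Stm5

namespace Pool.Agent.J4H85.CD

open Finset DomAC0 H568R2

theorem t_MAIN5 (hJUN : S_JUN5) (hARR : S_ARR5) (hUP : S_UP2) (hLOW : S_LOW) (hARI : S_ARI5) :
    S_MAIN5 := by
  intro n L r s w T d κ δ hn hκ hL hr hw hT hδ hδ2 Ω _ p D hDS hsol
  classical
  obtain ⟨hp0, hp1, hsol⟩ := hsol
  have hne : Nonempty Ω := by
    by_contra hcon
    rw [not_nonempty_iff] at hcon
    rw [Finset.univ_eq_empty, Finset.sum_empty] at hp1
    exact absurd hp1 (by norm_num)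
  have hs : 1 ≤ s := by
    obtain ⟨ω⟩ := hne
    have := ((D ω).next 0 []).2
    omega
  apply hARI n s w T d κ r δ hn hκ hs hw hT hr hδ hδ2
  intro k u V t q y hk hu hku ht hrt hq0 hq1 hy0 hy1 hV
  obtain ⟨arr, z, hlt, hloc, hsum⟩ := hARR n L k u hk hu hku hL
  have hjun : ∀ j, Junta r (fun X => atoms r (arr X) j) := by
    rintro ⟨v, φ⟩
    choose c hc using hloc
    refine ⟨univ.image (fun i : Fin r => c (v i).1 (v i).2), ?_, ?_⟩
    · refine Finset.card_image_le.trans ?_
      simp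
    · intro x x' hx
      show φ (fun i => arr x (v i).1 (v i).2) = φ (fun i => arr x' (v i).1 (v i).2)
      congr 1
      funext i
      apply hc
      apply hx
      exact Finset.mem_image_of_mem (fun i : Fin r => c (v i).1 (v i).2) (Finset.mem_univ i)
  have hlow := hLOW k u Ω p (fun ω X i j => (D ω).answer T (arr X) (z i j)) y δ hy0 hy1 hp0 hp1
    (by
      intro X i j
      refine (hsol (arr X) (hlt X) (z i j)).trans (le_of_eq ?_)
      refine Finset.sum_congr rfl fun ω _ => ?_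
      by_cases hh : ((D ω).answer T (arr X) (z i j) = true ↔ IsSum (arr X) (z i j))
      · rw [if_pos hh, if_pos (hh.trans (hsum X i j))]
      · rw [if_neg hh, if_neg (fun h' => hh (h'.trans (hsum X i j).symm))])
  refine hlow.trans ?_
  set B : ℝ := (k : ℝ) ^ 2 * u * (2 * (s * w) * et d t (2 ^ κ) q) +
      (k : ℝ) ^ 2 * (2 * (T * w * V)) +
      (s * w) * (2 * (t : ℝ) ^ 2 + (2 * (k * u) : ℝ) ^ 2 * et d t (2 ^ κ) q) /
        (y * q ^ d) ^ 2 with hB
  have hup : ∀ ω, Ex (vp (y / 2)) (fun X : Slot k u → Bool => ∑ i : Fin k, ∑ j : Fin k,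
      ((univ.filter (fun e : Fin u => (D ω).answer T (arr (pl2 i j e X)) (z i j) ≠
        (D ω).answer T (arr X) (z i j))).card : ℝ)) ≤ B := by
    intro ω
    refine hUP k u s w T t V
      (fun c b X => ((D ω).mem c b).eval (atoms r (arr X)))
      (fun i j => (D ω).next (z i j)) (fun i j => (D ω).ans (z i j)) y (q ^ d)
      (et d t (2 ^ κ) q) hy0 hy1 (by positivity)
      (pow_le_one₀ hq0.le (by linarith)) ?_ hV
    intro c b Y
    exact hJUN (Slot k u) (Atom n r) ((D ω).mem c b) (fun X => atoms r (arr X)) r hjun q t d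
      (2 ^ κ) hq0.le hq1 ht hrt (hDS ω c b).1 (hDS ω c b).2 Y
  calc ∑ ω, p ω * Ex (vp (y / 2)) (fun X : Slot k u → Bool => ∑ i : Fin k, ∑ j : Fin k,
      ((univ.filter (fun e : Fin u => (D ω).answer T (arr (pl2 i j e X)) (z i j) ≠
        (D ω).answer T (arr X) (z i j))).card : ℝ)) ≤ ∑ ω, p ω * B :=
        Finset.sum_le_sum fun ω _ => mul_le_mul_of_nonneg_left (hup ω) (hp0 ω)
    _ = B := by rw [← Finset.sum_mul, hp1, one_mul]

end Pool.Agent.J4H85.CD
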