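import Pool.Agent.J4H85.CD.Stm3
import Pool.Agent.J4H52.CD.Qry

set_option autoImplicit false

/-! Piece QRYL of project CD, after helper52's QRY. -/

namespace Pool.Agent.J4H85.CD

open Finset

theorem t_QRYL : S_QRYL := by
  classical
  intro k u s w T V F nx i j X hV
  obtain ⟨cs, hcs⟩ : ∃ cs : ℕ → Fin s, cs = fun t => nx (rd nx (fun c b => F c b X) t) := ⟨_, rfl⟩
  have hsub : (univ.filter (fun e : Fin u =>
      rd nx (fun c b => F c b (pl2 i j e X)) T ≠ rd nx (fun c b => F c b X) T)) ⊆
      ((univ : Finset (Fin T × Fin w)).biUnion (fun tb =>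
        univ.filter (fun e : Fin u => (false, i, e) ∈ sn (F (cs tb.1) tb.2) X))) ∪
      ((univ : Finset (Fin T × Fin w)).biUnion (fun tb =>
        univ.filter (fun e : Fin u => (true, j, e) ∈ sn (F (cs tb.1) tb.2) X))) ∪
      ((univ : Finset (Fin s × Fin w)).biUnion (fun cb =>
        univ.filter (fun e : Fin u =>
          (((false, i, e), (true, j, e)) : Slot k u × Slot k u) ∈ jn (F cb.1 cb.2) X))) := by
    intro e he
    rw [Finset.mem_filter] at he
    by_contra hcon
    rw [Finset.mem_union, Finset.mem_union, not_or, not_or] at hcon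
    obtain ⟨⟨h1, h2⟩, h3⟩ := hcon
    apply he.2
    apply Pool.Agent.J4H52.CD.rd_congr
    intro t ht
    funext b
    show F (nx (rd nx (fun c b => F c b X) t)) b (pl2 i j e X) =
      F (nx (rd nx (fun c b => F c b X) t)) b X
    have hc : nx (rd nx (fun c b => F c b X) t) = cs t := by rw [hcs]
    rw [hc]
    by_contra hne
    have a1 : (false, i, e) ∉ sn (F (cs t) b) X := fun h => h1 (Finset.mem_biUnion.2
      ⟨(⟨t, ht⟩, b), mem_univ _, Finset.mem_filter.2 ⟨mem_univ _, h⟩⟩)
    have a2 : (true, j, e) ∉ sn (F (cs t) b) X := fun h => h2 (Finset.mem_biUnion.2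
      ⟨(⟨t, ht⟩, b), mem_univ _, Finset.mem_filter.2 ⟨mem_univ _, h⟩⟩)
    apply h3
    refine Finset.mem_biUnion.2 ⟨(cs t, b), mem_univ _, Finset.mem_filter.2 ⟨mem_univ _, ?_⟩⟩
    unfold sn at a1 a2
    rw [Finset.mem_filter, not_and, not_not] at a1 a2
    unfold jn
    rw [Finset.mem_filter]
    exact ⟨mem_univ _, a1 (mem_univ _), a2 (mem_univ _), hne⟩
  have hb : ∀ (c : Bool) (l : Fin k) (f : (Slot k u → Bool) → Bool), (sn f X).card ≤ V →
      (univ.filter (fun e : Fin u => (c, l, e) ∈ sn f X)).card ≤ V := by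
    intro c l f hf
    refine le_trans ?_ hf
    refine Finset.card_le_card_of_injOn (fun e : Fin u => ((c, l, e) : Slot k u)) ?_ ?_
    · intro e he
      exact (Finset.mem_filter.1 he).2
    · intro e _ e' _ h
      have h' : ((c, l, e) : Slot k u) = (c, l, e') := h
      simpa using h'
  refine (Finset.card_le_card hsub).trans ((Finset.card_union_le _ _).trans ?_)
  refine Nat.add_le_add ((Finset.card_union_le _ _).trans ?_) ?_
  · have b1 : ∀ (c : Bool) (l : Fin k), ((univ : Finset (Fin T × Fin w)).biUnion (fun tb =>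
        univ.filter (fun e : Fin u => (c, l, e) ∈ sn (F (cs tb.1) tb.2) X))).card ≤ T * w * V := by
      intro c l
      refine Finset.card_biUnion_le.trans ?_
      refine (Finset.sum_le_sum fun tb _ => hb c l _ (hV (cs tb.1) tb.2)).trans ?_
      rw [Finset.sum_const, Finset.card_univ, Fintype.card_prod, Fintype.card_fin,
        Fintype.card_fin, smul_eq_mul]
    have := b1 false i
    have := b1 true j
    omega
  · refine Finset.card_biUnion_le.trans (le_of_eq ?_)
    rw [Fintype.sum_prod_type]

end Pool.Agent.J4H85.CD
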