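import Mathlib
import Pool.Agent.J4H85.CD.Stm

namespace Pool.Agent.J4H85.CD

open Finset DomAC0 H568R2

section
variable {I : Type} [Fintype I] [DecidableEq I]

/-- sum over the fibres -/
lemma Ex_push2 {A B : Type} [Fintype A] [Fintype B] [DecidableEq B]
    (h : A → B) (w : A → ℝ) (Φ : (I → B) → ℝ) (g : (I → B) → I → A → ℝ) :
    Ex w (fun ω : I → A => Φ (fun i => h (ω i)) * ∏ i, g (fun i => h (ω i)) i (ω i)) =
      ∑ X : I → B, Φ X * ∏ i, ∑ a ∈ univ.filter (fun a => h a = X i), w a * g X i a := by
  classical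
  unfold Ex
  have key : ∀ X : I → B, Φ X * ∏ i, ∑ a ∈ univ.filter (fun a => h a = X i), w a * g X i a =
      ∑ ω ∈ univ.filter (fun ω : I → A => (fun i => h (ω i)) = X),
        (∏ i, w (ω i)) * (Φ (fun i => h (ω i)) * ∏ i, g (fun i => h (ω i)) i (ω i)) := by
    intro X
    have : (univ.filter (fun ω : I → A => (fun i => h (ω i)) = X)) =
          Fintype.piFinset (fun i => univ.filter (fun a => h a = X i)) := by
      ext ω; simp [Fintype.mem_piFinset, funext_iff]
    rw [Finset.prod_univ_sum, ← this, Finset.mul_sum]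
    refine Finset.sum_congr rfl fun ω hω => ?_
    have hX : (fun i => h (ω i)) = X := (Finset.mem_filter.1 hω).2
    rw [hX, Finset.prod_mul_distrib]; ring
  rw [Finset.sum_congr rfl fun X _ => key X]
  rw [Finset.sum_fiberwise_of_maps_to (s := univ) (t := univ)
    (g := fun ω : I → A => (fun i => h (ω i)))
    (f := fun ω : I → A => (∏ i, w (ω i)) *
      (Φ (fun i => h (ω i)) * ∏ i, g (fun i => h (ω i)) i (ω i)))]
  intro i _
  exact Finset.mem_univ _

lemma sn_false {f : (I → Bool) → Bool} {X : I → Bool} {l : I} (h : l ∈ sn f X) :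
    X l = false := by
  unfold sn at h
  rw [Finset.mem_filter] at h
  by_contra hne
  have hX : X l = true := by simpa using hne
  apply h.2
  rw [← hX, Function.update_eq_self]

/-- weights of the coupled space -/
noncomputable def WW (y q : ℝ) : Bool × (Option Bool × Bool) → ℝ :=
  fun c => vp y c.1 * (fun e : Option Bool × Bool => wq q e.1 * vp (1 / 2) e.2) c.2

def hM : Bool × (Option Bool × Bool) → Bool := fun c => c.1 && c.2.1.getD c.2.2

lemma free_card {f : (I → Bool) → Bool} {K : ℕ} (Y : I → Bool) (ρ : Restr I) (D : I → Bool)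
    (hJ : Junta K (rs (fun x => f (mask Y x)) ρ)) :
    ((sn f (fun i => Y i && (ρ i).getD (D i))).filter
      (fun i => Y i = true ∧ ρ i = none)).card ≤ K := by
  obtain ⟨A, hA, hdep⟩ := hJ
  refine (Finset.card_le_card ?_).trans hA
  intro i hi
  rw [Finset.mem_filter] at hi
  obtain ⟨his, hY, hρ⟩ := hi
  by_contra hiA
  unfold sn at his
  rw [Finset.mem_filter] at his
  apply his.2
  have h1 : rs (fun x => f (mask Y x)) ρ (Function.update D i true) =
      rs (fun x => f (mask Y x)) ρ D := by
    apply hdep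
    intro j hj
    have hne : j ≠ i := fun h => hiA (by rw [← h]; exact hj)
    rw [Function.update_of_ne hne]
  have e1 : mask Y (ov ρ (Function.update D i true)) =
      Function.update (fun i => Y i && (ρ i).getD (D i)) i true := by
    funext j
    unfold mask ov
    by_cases hj : j = i
    · subst hj; simp [hY, hρ]
    · simp [Function.update_of_ne hj]
  have e2 : mask Y (ov ρ D) = fun i => Y i && (ρ i).getD (D i) := rfl
  unfold rs at h1
  simp only [e1, e2] at h1
  exact h1

end

theorem t_TAIL : S_TAIL := by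
  intro I _ _ f K V y q η hy0 hy1 hq0 hq1 hη hV
  classical
  set Φ : (I → Bool) → ℝ := fun X => if V ≤ (sn f X).card then (1 : ℝ) else 0 with hΦ
  set g : (I → Bool) → I → (Bool × (Option Bool × Bool)) → ℝ :=
    fun X i c => if i ∈ sn f X ∧ (c.1 = true ∧ c.2.1 = none) then 1 / 2 else 1 with hg
  have hΦ0 : ∀ X, 0 ≤ Φ X := by intro X; rw [hΦ]; dsimp only; split_ifs <;> norm_num
  have hpush := Ex_push (I := I) hM (WW y q) (vp (y / 2)) (by
    intro b
    rw [Finset.sum_filter, Fintype.sum_prod_type]
    simp only [Fintype.sum_prod_type, Fintype.sum_option, Fintype.sum_bool, WW, hM]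
    rcases b with _ | _ <;> simp [wq, vp] <;> ring) Φ
  have hWnn : ∀ a, 0 ≤ WW y q a := by
    intro a
    exact mul_nonneg (vp_nonneg hy0.le hy1 _) (mul_nonneg (wq_nonneg hq0.le hq1 _)
      (vp_nonneg (by norm_num) (by norm_num) _))
  -- pointwise
  have hpt : ∀ ω : I → (Bool × (Option Bool × Bool)), Φ (fun i => hM (ω i)) ≤
      2 ^ K * (Φ (fun i => hM (ω i)) * ∏ i, g (fun i => hM (ω i)) i (ω i)) +
      (if ¬ Junta K (rs (fun x => f (mask (fun i => (ω i).1) x)) (fun i => (ω i).2.1))
        then (1 : ℝ) else 0) := by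
    intro ω
    set X : I → Bool := fun i => hM (ω i) with hX
    have hprod : ∏ i, g X i (ω i) = (1 / 2 : ℝ) ^ ((sn f X).filter
        (fun i => (ω i).1 = true ∧ (ω i).2.1 = none)).card := by
      rw [hg]
      dsimp only
      rw [Finset.prod_ite]
      simp only [Finset.prod_const, one_pow, mul_one]
      congr 2
      ext i
      simp
    have hprod0 : 0 ≤ ∏ i, g X i (ω i) := by rw [hprod]; positivity
    by_cases hJ : Junta K (rs (fun x => f (mask (fun i => (ω i).1) x)) (fun i => (ω i).2.1))
    · have hc := free_card (f := f) (fun i => (ω i).1) (fun i => (ω i).2.1)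
        (fun i => (ω i).2.2) hJ
      have hc' : ((sn f X).filter (fun i => (ω i).1 = true ∧ (ω i).2.1 = none)).card ≤ K := hc
      rw [if_neg (not_not.2 hJ), add_zero]
      have h1 : (1 : ℝ) ≤ 2 ^ K * ∏ i, g X i (ω i) := by
        rw [hprod]
        have h2 : (1 / 2 : ℝ) ^ K ≤ (1 / 2 : ℝ) ^ ((sn f X).filter
            (fun i => (ω i).1 = true ∧ (ω i).2.1 = none)).card :=
          pow_le_pow_of_le_one (by norm_num) (by norm_num) hc'
        calc (1 : ℝ) = 2 ^ K * (1 / 2) ^ K := by rw [← mul_pow]; norm_num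
          _ ≤ _ := mul_le_mul_of_nonneg_left h2 (by positivity)
      calc Φ X = Φ X * 1 := by ring
        _ ≤ Φ X * (2 ^ K * ∏ i, g X i (ω i)) := mul_le_mul_of_nonneg_left h1 (hΦ0 X)
        _ = _ := by ring
    · rw [if_pos hJ]
      have h1 : Φ X ≤ 1 := by rw [hΦ]; dsimp only; split_ifs <;> norm_num
      have h2 : 0 ≤ 2 ^ K * (Φ X * ∏ i, g X i (ω i)) := by
        have := hΦ0 X
        positivity
      linarith
  -- the middle term
  have hmid : Ex (WW y q) (fun ω : I → (Bool × (Option Bool × Bool)) =>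
      Φ (fun i => hM (ω i)) * ∏ i, g (fun i => hM (ω i)) i (ω i)) ≤
      (1 / 2) ^ (K + 1) * Ex (vp (y / 2)) Φ := by
    rw [Ex_push2]
    unfold Ex
    rw [Finset.mul_sum]
    refine Finset.sum_le_sum fun X _ => ?_
    by_cases hVX : V ≤ (sn f X).card
    · have hΦ1 : Φ X = 1 := by rw [hΦ]; dsimp only; rw [if_pos hVX]
      rw [hΦ1]
      have hsite : ∀ i, ∑ a ∈ univ.filter (fun a => hM a = X i), WW y q a * g X i a ≤
          vp (y / 2) (X i) * (if i ∈ sn f X then (1 - y * q / 4) else 1) := by
        intro i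
        by_cases hi : i ∈ sn f X
        · have hXi := sn_false hi
          rw [if_pos hi, Finset.sum_filter, Fintype.sum_prod_type]
          simp only [Fintype.sum_prod_type, Fintype.sum_option, Fintype.sum_bool, WW, hM, hg, hi,
            hXi]
          simp [wq, vp]
          nlinarith [mul_pos hy0 hq0, mul_pos (mul_pos hy0 hq0) hy0]
        · rw [if_neg hi, Finset.sum_filter, Fintype.sum_prod_type]
          simp only [Fintype.sum_prod_type, Fintype.sum_option, Fintype.sum_bool, WW, hM, hg, hi]
          rcases hXi : X i with _ | _ <;> simp [wq, vp] <;> nlinarith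
      have hsite0 : ∀ i, 0 ≤ ∑ a ∈ univ.filter (fun a => hM a = X i), WW y q a * g X i a := by
        intro i
        apply Finset.sum_nonneg
        intro a _
        apply mul_nonneg (hWnn a)
        rw [hg]; dsimp only; split_ifs <;> norm_num
      have hP : ∏ i, ∑ a ∈ univ.filter (fun a => hM a = X i), WW y q a * g X i a ≤
          (∏ i, vp (y / 2) (X i)) * (1 - y * q / 4) ^ (sn f X).card := by
        refine (Finset.prod_le_prod (fun i _ => hsite0 i) (fun i _ => hsite i)).trans ?_
        rw [Finset.prod_mul_distrib]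
        apply le_of_eq
        congr 1
        rw [Finset.prod_ite]
        simp
      have hyq : 0 < y * q := mul_pos hy0 hq0
      have hyq1 : y * q ≤ 1 := by nlinarith
      have hb : (1 - y * q / 4) ^ (sn f X).card ≤ (1 / 2 : ℝ) ^ (K + 1) := by
        have h1 : (1 - y * q / 4) ^ (sn f X).card ≤ (1 - y * q / 4) ^ V :=
          pow_le_pow_of_le_one (by linarith) (by linarith) hVX
        have h2 : (1 - y * q / 4) ≤ Real.exp (-(y * q / 4)) := by
          have := Real.add_one_le_exp (-(y * q / 4))
          linarith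
        have h3 : (1 - y * q / 4) ^ V ≤ Real.exp (-(y * q / 4)) ^ V :=
          pow_le_pow_left₀ (by linarith) h2 V
        have h4 : Real.exp (-(y * q / 4)) ^ V = Real.exp (-(V * (y * q) / 4)) := by
          rw [← Real.exp_nat_mul]; congr 1; ring
        have h5 : Real.exp (-(V * (y * q) / 4)) ≤ Real.exp (-((K : ℝ) + 1)) := by
          apply Real.exp_le_exp.2
          linarith
        have h6 : Real.exp (-((K : ℝ) + 1)) = Real.exp (-1) ^ (K + 1) := by
          rw [← Real.exp_nat_mul]; congr 1; push_cast; ring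
        have h7 : Real.exp (-1) ≤ 1 / 2 := by
          have := Real.add_one_le_exp (1 : ℝ)
          rw [Real.exp_neg, ← one_div]
          apply one_div_le_one_div_of_le (by norm_num)
          linarith
        have h8 : Real.exp (-1) ^ (K + 1) ≤ (1 / 2 : ℝ) ^ (K + 1) :=
          pow_le_pow_left₀ (Real.exp_pos _).le h7 _
        linarith [h1.trans (h3.trans (h4.le.trans (h5.trans (h6.le.trans h8))))]
      have hv0 : 0 ≤ ∏ i, vp (y / 2) (X i) :=
        Finset.prod_nonneg fun i _ => vp_nonneg (by linarith) (by linarith) _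
      calc 1 * ∏ i, ∑ a ∈ univ.filter (fun a => hM a = X i), WW y q a * g X i a
          ≤ (∏ i, vp (y / 2) (X i)) * (1 - y * q / 4) ^ (sn f X).card := by rw [one_mul]; exact hP
        _ ≤ (∏ i, vp (y / 2) (X i)) * (1 / 2 : ℝ) ^ (K + 1) := mul_le_mul_of_nonneg_left hb hv0
        _ = _ := by ring
    · have hΦ1 : Φ X = 0 := by rw [hΦ]; dsimp only; rw [if_neg hVX]
      rw [hΦ1]; simp
  -- the last term
  have hlast : Ex (WW y q) (fun ω : I → (Bool × (Option Bool × Bool)) =>
      (if ¬ Junta K (rs (fun x => f (mask (fun i => (ω i).1) x)) (fun i => (ω i).2.1))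
        then (1 : ℝ) else 0)) ≤ η := by
    have e1 : Ex (WW y q) (fun ω : I → (Bool × (Option Bool × Bool)) =>
      (if ¬ Junta K (rs (fun x => f (mask (fun i => (ω i).1) x)) (fun i => (ω i).2.1))
        then (1 : ℝ) else 0)) = Ex (vp y) (fun Y : I → Bool => NJ K q f Y) := by
      refine (Ex_prod (I := I) (vp y)
        (fun e : Option Bool × Bool => wq q e.1 * vp (1 / 2) e.2) _).trans ?_
      congr 1
      funext Y
      refine (Ex_prod (I := I) (wq q) (vp (1 / 2)) _).trans ?_
      unfold NJ
      congr 1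
      funext ρ
      exact Ex_const (I := I) (vp_sum (1 / 2))
        (if ¬ Junta K (rs (fun x => f (mask Y x)) ρ) then (1 : ℝ) else 0)
    rw [e1]
    have h2 := Ex_mono (I := I) (vp_nonneg hy0.le hy1) (F := fun Y : I → Bool => NJ K q f Y)
      (G := fun _ => η) (fun Y => hη Y)
    rw [Ex_const (vp_sum y)] at h2
    exact h2
  have htot := Ex_mono (I := I) hWnn hpt
  rw [Ex_add, Ex_smul, hpush] at htot
  have hpow : (2 : ℝ) ^ K * ((1 / 2) ^ (K + 1) * Ex (vp (y / 2)) Φ) =
      1 / 2 * Ex (vp (y / 2)) Φ := by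
    have : (2 : ℝ) ^ K * (1 / 2) ^ K = 1 := by rw [← mul_pow]; norm_num
    rw [pow_succ]
    linear_combination (1 / 2 * Ex (vp (y / 2)) Φ) * this
  have h9 := mul_le_mul_of_nonneg_left hmid (show (0 : ℝ) ≤ 2 ^ K by positivity)
  rw [hpow] at h9
  linarith

end Pool.Agent.J4H85.CD
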